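import Mathlib
import Pool.Agent.Y4.G.Cas

/-!
# Lie algebras of matrices with an involution, without hermitian forms

The arguments of `Pool.Agent.Y4.G.Cas` for Lie algebras which are not stable under the conjugate
transpose. Positivity is replaced by the regularity of the elements of degree one.
-/

set_option linter.unusedSectionVars false

namespace Pool.Agent.N183.JP

open Matrix Module
open Pool.Agent.Y4.G (trF trF_apply casimir_comm exists_dual exists_eig_range trace_idemM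
  rank_mul_lt)
open Pool.Agent.Y4.G.Lie (pos mem_pos)

variable {B : Type*} [Fintype B] [DecidableEq B]

theorem idem_zero {R : Matrix B B ℂ} (hR : R * R = R) (h : trace R = 0) : R = 0 := by
  have h1 := trace_idemM hR
  rw [h] at h1
  have h2 : finrank ℂ (LinearMap.range (mulVecLin R)) = 0 := by exact_mod_cast h1.symm
  rw [Submodule.finrank_eq_zero, LinearMap.range_eq_bot] at h2
  apply Matrix.toLin'.injective
  rw [map_zero]
  exact h2

/-- A Lie algebra of matrices in a corner which contains the difference of two projectors and whose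
elements of degree one are regular. -/
structure LieP (G : Submodule ℂ (Matrix B B ℂ)) (P Q : Matrix B B ℂ) (a b : ℕ) : Prop where
  br : ∀ X ∈ G, ∀ Y ∈ G, X * Y - Y * X ∈ G
  PP : P * P = P
  QQ : Q * Q = Q
  PQ : P * Q = 0
  QP : Q * P = 0
  D : P - Q ∈ G
  lel : ∀ X ∈ G, (P + Q) * X = X
  ler : ∀ X ∈ G, X * (P + Q) = X
  irr : ∀ U : Submodule ℂ (B → ℂ), (∀ u ∈ U, (P + Q) *ᵥ u = u) →
    (∀ X ∈ G, ∀ u ∈ U, X *ᵥ u ∈ U) → U = ⊥ ∨ ∀ u, (P + Q) *ᵥ u = u → u ∈ U
  rg : ∀ x ∈ pos G P Q, ∃ y ∈ pos G Q P, x * y * x = x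
  rg' : ∀ x ∈ pos G Q P, ∃ y ∈ pos G P Q, x * y * x = x
  trP : trace P = a
  trQ : trace Q = b

namespace LieP

variable {G : Submodule ℂ (Matrix B B ℂ)} {P Q : Matrix B B ℂ} {a b : ℕ} (H : LieP G P Q a b)
include H

theorem symm : LieP G Q P b a where
  br := H.br
  PP := H.QQ
  QQ := H.PP
  PQ := H.QP
  QP := H.PQ
  D := by
    have h := Submodule.neg_mem _ H.D
    rwa [neg_sub] at h
  lel := by rw [add_comm]; exact H.lel
  ler := by rw [add_comm]; exact H.ler
  irr := by rw [add_comm Q P]; exact H.irr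
  rg := H.rg'
  rg' := H.rg
  trP := H.trQ
  trQ := H.trP

theorem grP {X : Matrix B B ℂ} (hX : X ∈ G) : P * X * Q ∈ G := by
  have h1 := H.br _ H.D _ hX
  have h2 := H.br _ H.D _ h1
  have h3 : (P - Q) * ((P - Q) * X - X * (P - Q)) - ((P - Q) * X - X * (P - Q)) * (P - Q) +
      (2 : ℂ) • ((P - Q) * X - X * (P - Q)) = (8 : ℂ) • (P * X * Q) := by
    have hl := H.lel X hX
    have hr := H.ler X hX
    obtain ⟨x1, h1⟩ : ∃ x1, x1 = P * X * P := ⟨_, rfl⟩
    obtain ⟨x2, h2⟩ : ∃ x2, x2 = P * X * Q := ⟨_, rfl⟩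
    obtain ⟨x3, h3⟩ : ∃ x3, x3 = Q * X * P := ⟨_, rfl⟩
    obtain ⟨x4, h4⟩ : ∃ x4, x4 = Q * X * Q := ⟨_, rfl⟩
    have hX2 : X = x1 + x2 + x3 + x4 := by
      nth_rewrite 1 [← hr, ← hl]
      rw [h1, h2, h3, h4]
      noncomm_ring
    have p1 : P * x1 = x1 := by rw [h1, ← mul_assoc, ← mul_assoc, H.PP]
    have p2 : P * x2 = x2 := by rw [h2, ← mul_assoc, ← mul_assoc, H.PP]
    have p3 : P * x3 = 0 := by rw [h3, ← mul_assoc, ← mul_assoc, H.PQ, zero_mul, zero_mul]
    have p4 : P * x4 = 0 := by rw [h4, ← mul_assoc, ← mul_assoc, H.PQ, zero_mul, zero_mul]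
    have q1 : Q * x1 = 0 := by rw [h1, ← mul_assoc, ← mul_assoc, H.QP, zero_mul, zero_mul]
    have q2 : Q * x2 = 0 := by rw [h2, ← mul_assoc, ← mul_assoc, H.QP, zero_mul, zero_mul]
    have q3 : Q * x3 = x3 := by rw [h3, ← mul_assoc, ← mul_assoc, H.QQ]
    have q4 : Q * x4 = x4 := by rw [h4, ← mul_assoc, ← mul_assoc, H.QQ]
    have r1 : x1 * P = x1 := by rw [h1, mul_assoc _ P P, H.PP]
    have r2 : x2 * P = 0 := by rw [h2, mul_assoc _ Q P, H.QP, mul_zero]
    have r3 : x3 * P = x3 := by rw [h3, mul_assoc _ P P, H.PP]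
    have r4 : x4 * P = 0 := by rw [h4, mul_assoc _ Q P, H.QP, mul_zero]
    have s1 : x1 * Q = 0 := by rw [h1, mul_assoc _ P Q, H.PQ, mul_zero]
    have s2 : x2 * Q = x2 := by rw [h2, mul_assoc _ Q Q, H.QQ]
    have s3 : x3 * Q = 0 := by rw [h3, mul_assoc _ P Q, H.PQ, mul_zero]
    have s4 : x4 * Q = x4 := by rw [h4, mul_assoc _ Q Q, H.QQ]
    have e1 : (P - Q) * X - X * (P - Q) = (2 : ℂ) • x2 - (2 : ℂ) • x3 := by
      rw [hX2]
      simp only [mul_add, add_mul, sub_mul, mul_sub, p1, p2, p3, p4, q1, q2, q3, q4, r1, r2, r3,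
        r4, s1, s2, s3, s4, two_smul]
      abel
    rw [e1, ← h2]
    simp only [mul_sub, sub_mul, Matrix.mul_smul, Matrix.smul_mul, p2, p3, q2, q3, r2, r3, s2, s3,
      smul_zero]
    module
  have h4 := Submodule.smul_mem _ (8 : ℂ)⁻¹
    (Submodule.add_mem _ h2 (Submodule.smul_mem _ (2 : ℂ) h1))
  rw [h3, smul_smul, inv_mul_cancel₀ (by norm_num), one_smul] at h4
  exact h4

theorem grQ {X : Matrix B B ℂ} (hX : X ∈ G) : Q * X * P ∈ G := H.symm.grP hX

theorem split {X : Matrix B B ℂ} (hX : X ∈ G) :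
    X = P * X * Q + Q * X * P + (P * X * P + Q * X * Q) := by
  nth_rewrite 1 [← H.ler X hX, ← H.lel X hX]
  noncomm_ring

theorem gr0 {X : Matrix B B ℂ} (hX : X ∈ G) : P * X * P + Q * X * Q ∈ G := by
  have h1 := H.split hX
  have h2 : P * X * P + Q * X * Q = X - (P * X * Q + Q * X * P) := by
    nth_rewrite 3 [h1]
    abel
  rw [h2]
  exact Submodule.sub_mem _ hX (Submodule.add_mem _ (H.grP hX) (H.grQ hX))

theorem gr0_comm (X : Matrix B B ℂ) :
    P * (P * X * P + Q * X * Q) = (P * X * P + Q * X * Q) * P := by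
  have h1 : P * (P * X * P + Q * X * Q) = (P * P) * X * P + (P * Q) * X * Q := by noncomm_ring
  have h2 : (P * X * P + Q * X * Q) * P = P * X * (P * P) + Q * X * (Q * P) := by noncomm_ring
  rw [h1, h2, H.PP, H.PQ, H.QP]
  simp

/-- **Schur's lemma** for the positive part. -/
theorem schur {c : Matrix B B ℂ} (h1 : P * c = c) (h2 : c * P = c)
    (hc : ∀ z ∈ G, P * z = z * P → c * z = z * c) : ∃ κ : ℂ, c = κ • P := by
  by_cases hP0 : P = 0
  · refine ⟨0, ?_⟩
    rw [← h1, hP0, zero_mul, smul_zero]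
  obtain ⟨μ, v, ⟨v', hv'⟩, hv0, hcv⟩ := exists_eig_range (N := c) hP0 (by
    intro v _
    refine ⟨c *ᵥ v, ?_⟩
    rw [mulVecLin_apply, mulVec_mulVec, h1])
  rw [mulVecLin_apply] at hv'
  have hPv : P *ᵥ v = v := by rw [← hv', mulVec_mulVec, H.PP]
  let U0 : Submodule ℂ (B → ℂ) :=
    { carrier := {u | P *ᵥ u = u ∧ c *ᵥ u = μ • u}
      zero_mem' := ⟨mulVec_zero _, by rw [mulVec_zero, smul_zero]⟩
      add_mem' := fun {x y} hx hy => ⟨by rw [mulVec_add, hx.1, hy.1],
        by rw [mulVec_add, hx.2, hy.2, smul_add]⟩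
      smul_mem' := fun r x hx => ⟨by rw [mulVec_smul, hx.1],
        by rw [mulVec_smul, hx.2, smul_comm]⟩ }
  have hU0 : ∀ u, u ∈ U0 ↔ P *ᵥ u = u ∧ c *ᵥ u = μ • u := fun _ => Iff.rfl
  let U1 : Submodule ℂ (B → ℂ) :=
    Submodule.span ℂ {w | ∃ y ∈ G, ∃ u ∈ U0, Q * y = y ∧ y * P = y ∧ w = y *ᵥ u}
  have hU1Q : ∀ w ∈ U1, Q *ᵥ w = w := by
    intro w hw
    induction hw using Submodule.span_induction with
    | mem w hw =>
      obtain ⟨y, _, u, _, hy, _, rfl⟩ := hw
      rw [mulVec_mulVec, hy]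
    | zero => exact mulVec_zero _
    | add x y _ _ hx hy => rw [mulVec_add, hx, hy]
    | smul r x _ hx => rw [mulVec_smul, hx]
  -- elements of degree zero
  have hz0 : ∀ z ∈ G, P * z = z * P → ∀ u ∈ U0, z *ᵥ u ∈ U0 := by
    intro z hz hzP u hu
    obtain ⟨h3, h4⟩ := (hU0 u).1 hu
    refine (hU0 _).2 ⟨?_, ?_⟩
    · rw [mulVec_mulVec, hzP, ← mulVec_mulVec, h3]
    · rw [mulVec_mulVec, hc z hz hzP, ← mulVec_mulVec, h4, mulVec_smul]
  have hQP0 : ∀ u ∈ U0, Q *ᵥ u = 0 := by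
    intro u hu
    obtain ⟨h3, _⟩ := (hU0 u).1 hu
    rw [← h3, mulVec_mulVec, H.QP, zero_mulVec]
  have hstab : ∀ X ∈ G, ∀ u ∈ U0 ⊔ U1, X *ᵥ u ∈ U0 ⊔ U1 := by
    intro X hX
    have hle : U0 ⊔ U1 ≤ (U0 ⊔ U1).comap (mulVecLin X) := by
      refine sup_le ?_ ?_
      · intro u hu
        rw [Submodule.mem_comap, mulVecLin_apply, H.split hX, add_mulVec, add_mulVec]
        refine Submodule.add_mem _ (Submodule.add_mem _ ?_ ?_) ?_
        · rw [← mulVec_mulVec, hQP0 u hu, mulVec_zero]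
          exact Submodule.zero_mem _
        · refine Submodule.mem_sup_right (Submodule.subset_span ⟨_, H.grQ hX, u, hu, ?_, ?_, rfl⟩)
          · rw [← mul_assoc, ← mul_assoc, H.QQ]
          · rw [mul_assoc _ P P, H.PP]
        · exact Submodule.mem_sup_left (hz0 _ (H.gr0 hX) (H.gr0_comm X) u hu)
      · refine Submodule.span_le.2 ?_
        rintro _ ⟨y, hy, u, hu, hy1, hy2, rfl⟩
        change X *ᵥ (y *ᵥ u) ∈ U0 ⊔ U1
        have hPy : P * y = 0 := by rw [← hy1, ← mul_assoc, H.PQ, zero_mul]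
        have hyQ : y * Q = 0 := by rw [← hy2, mul_assoc, H.PQ, mul_zero]
        rw [H.split hX, add_mulVec, add_mulVec]
        refine Submodule.add_mem _ (Submodule.add_mem _ ?_ ?_) ?_
        · -- the positive part
          refine Submodule.mem_sup_left ?_
          obtain ⟨x, hx⟩ : ∃ x, x = P * X * Q := ⟨_, rfl⟩
          have hxG : x ∈ G := by rw [hx]; exact H.grP hX
          have hPx : P * x = x := by rw [hx, ← mul_assoc, ← mul_assoc, H.PP]
          have hxP : x * P = 0 := by rw [hx, mul_assoc _ Q P, H.QP, mul_zero]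
          have hxu : x *ᵥ u = 0 := by
            rw [← ((hU0 u).1 hu).1, mulVec_mulVec, hxP, zero_mulVec]
          rw [← hx]
          have h3 : x *ᵥ (y *ᵥ u) = (x * y - y * x) *ᵥ u := by
            rw [sub_mulVec, ← mulVec_mulVec, ← mulVec_mulVec, hxu, mulVec_zero, sub_zero]
          rw [h3]
          refine hz0 _ (H.br _ hxG _ hy) ?_ u hu
          have e1 : P * (x * y - y * x) = (P * x) * y - (P * y) * x := by noncomm_ring
          have e2 : (x * y - y * x) * P = x * (y * P) - y * (x * P) := by noncomm_ring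
          rw [e1, e2, hPx, hPy, hy2, hxP, zero_mul, mul_zero]
        · rw [mulVec_mulVec, mul_assoc, hPy, mul_zero, zero_mulVec]
          exact Submodule.zero_mem _
        · refine Submodule.mem_sup_right ?_
          obtain ⟨z, hz⟩ : ∃ z, z = P * X * P + Q * X * Q := ⟨_, rfl⟩
          have hzG : z ∈ G := by rw [hz]; exact H.gr0 hX
          have hzP : P * z = z * P := by rw [hz]; exact H.gr0_comm X
          have hzQ : Q * z = z * Q := by
            have h3 := H.lel z hzG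
            have h4 := H.ler z hzG
            have h5 : Q * z = z - P * z := by
              have h7 : (P + Q) * z - P * z = Q * z := by noncomm_ring
              rw [h3] at h7
              exact h7.symm
            have h6 : z * Q = z - z * P := by
              have h7 : z * (P + Q) - z * P = z * Q := by noncomm_ring
              rw [h4] at h7
              exact h7.symm
            rw [h5, h6, hzP]
          rw [← hz]
          have h3 : z *ᵥ (y *ᵥ u) = (z * y - y * z) *ᵥ u + y *ᵥ (z *ᵥ u) := by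
            rw [sub_mulVec, mulVec_mulVec, mulVec_mulVec]
            abel
          rw [h3]
          refine Submodule.add_mem _ ?_ ?_
          · refine Submodule.subset_span ⟨_, H.br _ hzG _ hy, u, hu, ?_, ?_, rfl⟩
            · rw [mul_sub, ← mul_assoc, ← mul_assoc, hzQ, hy1, mul_assoc, hy1]
            · rw [sub_mul, mul_assoc z, hy2, mul_assoc y, ← hzP, ← mul_assoc, hy2]
          · exact Submodule.subset_span ⟨_, hy, _, hz0 _ hzG hzP u hu, hy1, hy2, rfl⟩
    intro u hu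
    exact hle hu
  have hunit : ∀ u ∈ U0 ⊔ U1, (P + Q) *ᵥ u = u := by
    intro u hu
    obtain ⟨u0, hu0, u1, hu1, rfl⟩ := Submodule.mem_sup.1 hu
    have h3 : P *ᵥ u1 = 0 := by rw [← hU1Q u1 hu1, mulVec_mulVec, H.PQ, zero_mulVec]
    rw [add_mulVec, mulVec_add, mulVec_add, hU1Q u1 hu1, hQP0 u0 hu0, ((hU0 _).1 hu0).1, h3,
      add_zero, zero_add]
  have hvU : v ∈ U0 := (hU0 v).2 ⟨hPv, hcv⟩
  refine ⟨μ, ?_⟩
  rcases H.irr (U0 ⊔ U1) hunit hstab with h3 | h3
  · exfalso
    have h4 : v ∈ U0 ⊔ U1 := Submodule.mem_sup_left hvU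
    rw [h3, Submodule.mem_bot] at h4
    exact hv0 h4
  · have h4 : ∀ w, c *ᵥ w = (μ • P) *ᵥ w := by
      intro w
      have h5 : (P + Q) *ᵥ (P *ᵥ w) = P *ᵥ w := by
        rw [mulVec_mulVec, add_mul, H.PP, H.QP, add_zero]
      obtain ⟨u0, hu0, u1, hu1, h6⟩ := Submodule.mem_sup.1 (h3 _ h5)
      have h7 : P *ᵥ u1 = 0 := by rw [← hU1Q u1 hu1, mulVec_mulVec, H.PQ, zero_mulVec]
      have h8 : P *ᵥ w = u0 := by
        have h9 := congrArg (fun z => P *ᵥ z) h6
        simp only [mulVec_add, h7, add_zero, ((hU0 _).1 hu0).1, mulVec_mulVec, H.PP] at h9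
        exact h9.symm
      rw [← h2, ← mulVec_mulVec, h8, ((hU0 _).1 hu0).2, smul_mulVec, h8]
    ext i j
    have h5 := congrFun (h4 (Pi.single j 1)) i
    rwa [mulVec_single_one, mulVec_single_one] at h5

theorem nondeg {x : Matrix B B ℂ} (hx : x ∈ pos G P Q)
    (h : ∀ y ∈ pos G Q P, trF B x y = 0) : x = 0 := by
  obtain ⟨y, hy, hxy⟩ := H.rg x hx
  have h1 : x * y * (x * y) = x * y := by rw [← mul_assoc, hxy]
  have h2 : x * y = 0 := idem_zero h1 (h y hy)
  rw [← hxy, h2, zero_mul]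

theorem br_pos {x z : Matrix B B ℂ} (hx : x ∈ pos G P Q) (hz : z ∈ G) (hzP : P * z = z * P)
    (hzQ : Q * z = z * Q) : z * x - x * z ∈ pos G P Q := by
  refine ⟨H.br _ hz _ hx.1, ?_, ?_⟩
  · rw [mul_sub, ← mul_assoc, hzP, mul_assoc, hx.2.1, ← mul_assoc P, hx.2.1]
  · rw [sub_mul, mul_assoc, hx.2.2, mul_assoc x, ← hzQ, ← mul_assoc, hx.2.2]

theorem comm_Q {z : Matrix B B ℂ} (hz : z ∈ G) (hzP : P * z = z * P) : Q * z = z * Q := by
  have h3 := H.lel z hz
  have h4 := H.ler z hz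
  have h5 : Q * z = z - P * z := by
    have h7 : (P + Q) * z - P * z = Q * z := by noncomm_ring
    rw [h3] at h7
    exact h7.symm
  have h6 : z * Q = z - z * P := by
    have h7 : z * (P + Q) - z * P = z * Q := by noncomm_ring
    rw [h4] at h7
    exact h7.symm
  rw [h5, h6, hzP]

/-- The Casimir elements. -/
theorem casimir : ∃ (n : ℕ) (b' : Basis (Fin n) ℂ (pos G P Q)) (x y : Fin n → Matrix B B ℂ)
    (κ κ' : ℂ), (∀ i, ((b' i : pos G P Q) : Matrix B B ℂ) = x i) ∧
      (∀ i, ∀ z : pos G P Q, trace ((z : Matrix B B ℂ) * y i) = b'.repr z i) ∧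
      ∑ i, x i * y i = κ • P ∧ ∑ i, y i * x i = κ' • Q := by
  obtain ⟨n, b', y, hy, hyb, hz⟩ := exists_dual (trF B) (pos G P Q) (pos G Q P)
    (fun x hx h => H.nondeg hx h) (fun x hx h => H.symm.nondeg hx fun y hy => by
      rw [trF_apply, trace_mul_comm]
      exact h y hy)
  obtain ⟨x, hx⟩ : ∃ x : Fin n → Matrix B B ℂ, ∀ i, ((b' i : pos G P Q) : Matrix B B ℂ) = x i :=
    ⟨_, fun _ => rfl⟩
  have hxm : ∀ i, x i ∈ pos G P Q := fun i => by rw [← hx]; exact (b' i).2
  -- the coefficients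
  have hx1 : ∀ w ∈ pos G P Q, w = ∑ j, trace (w * y j) • x j := by
    intro w hw
    have h4 := congrArg Subtype.val (b'.sum_repr ⟨w, hw⟩)
    refine h4.symm.trans ?_
    rw [Submodule.coe_sum]
    refine Finset.sum_congr rfl fun j _ => ?_
    have h5 : trace (w * y j) = b'.repr ⟨w, hw⟩ j := hyb j ⟨w, hw⟩
    rw [h5, ← hx]
    rfl
  have hy1 : ∀ w ∈ pos G Q P, w = ∑ j, trace (x j * w) • y j := by
    intro w hw
    refine (hz w hw).trans ?_
    exact Finset.sum_congr rfl fun j _ => by rw [trF_apply, hx]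
  have hcomm : ∀ z ∈ G, P * z = z * P → (∑ i, x i * y i) * z = z * ∑ i, x i * y i ∧
      (∑ i, y i * x i) * z = z * ∑ i, y i * x i := by
    intro z hzG hzP
    have hzQ := H.comm_Q hzG hzP
    exact casimir_comm x y z (fun i => hx1 _ (H.br_pos (hxm i) hzG hzP hzQ))
      (fun i => hy1 _ (H.symm.br_pos (hy i) hzG hzQ hzP))
  obtain ⟨κ, hκ⟩ := H.schur (c := ∑ i, x i * y i)
    (by
      rw [Finset.mul_sum]
      exact Finset.sum_congr rfl fun i _ => by rw [← mul_assoc, (hxm i).2.1])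
    (by
      rw [Finset.sum_mul]
      exact Finset.sum_congr rfl fun i _ => by rw [mul_assoc, (hy i).2.2])
    (fun z hz hzP => (hcomm z hz hzP).1)
  obtain ⟨κ', hκ'⟩ := H.symm.schur (c := ∑ i, y i * x i)
    (by
      rw [Finset.mul_sum]
      exact Finset.sum_congr rfl fun i _ => by rw [← mul_assoc, (hy i).2.1])
    (by
      rw [Finset.sum_mul]
      exact Finset.sum_congr rfl fun i _ => by rw [mul_assoc, (hxm i).2.2])
    (fun z hz hzQ => (hcomm z hz (H.symm.comm_Q hz hzQ)).2)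
  refine ⟨n, b', x, y, κ, κ', hx, fun i z => ?_, hκ, hκ'⟩
  rw [← hyb i z, trF_apply]

/-- The triple product. -/
theorem tri {x y z : Matrix B B ℂ} (hx : x ∈ pos G P Q) (hy : y ∈ pos G Q P)
    (hz : z ∈ pos G P Q) : x * y * z + z * y * x ∈ pos G P Q := by
  have h1 : x * z = 0 := by rw [← hx.2.2, ← hz.2.1, mul_assoc, ← mul_assoc Q, H.QP, zero_mul,
    mul_zero]
  have h2 : z * x = 0 := by rw [← hz.2.2, ← hx.2.1, mul_assoc, ← mul_assoc Q, H.QP, zero_mul,
    mul_zero]
  have h3 := H.br _ (H.br _ hx.1 _ hy.1) _ hz.1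
  have h4 : (x * y - y * x) * z - z * (x * y - y * x) = x * y * z + z * y * x -
      y * (x * z) - (z * x) * y := by noncomm_ring
  rw [h4, h1, h2, mul_zero, zero_mul, sub_zero, sub_zero] at h3
  refine ⟨h3, ?_, ?_⟩
  · rw [mul_add, ← mul_assoc, ← mul_assoc, hx.2.1, ← mul_assoc, ← mul_assoc, hz.2.1]
  · rw [add_mul, mul_assoc _ z, hz.2.2, mul_assoc _ x, hx.2.2]

/-- The quadratic product. -/
theorem quad {x y : Matrix B B ℂ} (hx : x ∈ pos G P Q) (hy : y ∈ pos G Q P) :
    x * y * x ∈ pos G P Q := by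
  have h4 := Submodule.smul_mem (pos G P Q) (2 : ℂ)⁻¹ (H.tri hx hy hx)
  rwa [← two_smul ℂ, smul_smul, inv_mul_cancel₀ two_ne_zero, one_smul] at h4

/-- The relation between traces. -/
theorem cas (p q : Matrix B B ℂ) (T : pos G P Q →ₗ[ℂ] pos G P Q) (hp : P * p = p) (hq : q * Q = q)
    (hT : ∀ x : pos G P Q, ((T x : pos G P Q) : Matrix B B ℂ) = p * x + x * q) :
    (a * b : ℂ) * LinearMap.trace ℂ (pos G P Q) T =
      (finrank ℂ (pos G P Q) : ℂ) * (b * trace p + a * trace q) := by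
  obtain ⟨n, b', x, y, κ, κ', hx, hy, hκ, hκ'⟩ := H.casimir
  have h1 : LinearMap.trace ℂ (pos G P Q) T = ∑ i, trace ((p * x i + x i * q) * y i) := by
    rw [LinearMap.trace_eq_matrix_trace ℂ b', Matrix.trace]
    refine Finset.sum_congr rfl fun i _ => ?_
    rw [diag_apply, LinearMap.toMatrix_apply, ← hy, hT, hx]
  have h2 : ∑ i, trace ((p * x i + x i * q) * y i) = κ * trace p + κ' * trace q := by
    have h3 : ∀ i, trace ((p * x i + x i * q) * y i) =
        trace (p * (x i * y i)) + trace (q * (y i * x i)) := by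
      intro i
      rw [add_mul, trace_add, mul_assoc, mul_assoc, trace_mul_comm (x i), mul_assoc]
    rw [Finset.sum_congr rfl fun i _ => h3 i, Finset.sum_add_distrib, ← trace_sum, ← trace_sum,
      ← Finset.mul_sum, ← Finset.mul_sum, hκ, hκ', Matrix.mul_smul, Matrix.mul_smul, trace_smul,
      trace_smul, trace_mul_comm, hp, hq, smul_eq_mul, smul_eq_mul]
  have hn : ∑ i, trace (x i * y i) = (n : ℂ) := by
    have h3 : ∀ i, trace (x i * y i) = 1 := by
      intro i
      have h4 := hy i (b' i)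
      rw [hx] at h4
      rw [h4, Basis.repr_self, Finsupp.single_eq_same]
    rw [Finset.sum_congr rfl fun i _ => h3 i]
    simp
  have h3 : κ * a = n := by
    rw [← hn, ← trace_sum, hκ, trace_smul, H.trP, smul_eq_mul]
  have h4 : κ' * b = n := by
    have h5 : ∑ i, trace (x i * y i) = trace (∑ i, y i * x i) := by
      rw [trace_sum]
      exact Finset.sum_congr rfl fun i _ => trace_mul_comm _ _
    rw [← hn, h5, hκ', trace_smul, H.trQ, smul_eq_mul]
  have h5 : finrank ℂ (pos G P Q) = n := by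
    rw [finrank_eq_card_basis b', Fintype.card_fin]
  rw [h1, h2, h5]
  linear_combination (b * trace p) * h3 + (a * trace q) * h4

/-- There are elements of degree one. -/
theorem pos_ne_bot (ha : 0 < a) (hb : 0 < b) : pos G P Q ≠ ⊥ := by
  intro h0
  have h1 : ∀ X ∈ G, P * X * Q = 0 := by
    intro X hX
    have h2 : P * X * Q ∈ pos G P Q := ⟨H.grP hX, by rw [← mul_assoc, ← mul_assoc, H.PP],
      by rw [mul_assoc _ Q Q, H.QQ]⟩
    rwa [h0, Submodule.mem_bot] at h2
  have h2 : ∀ X ∈ G, Q * X * P = 0 := by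
    intro X hX
    have h2 : Q * X * P ∈ pos G Q P := ⟨H.grQ hX, by rw [← mul_assoc, ← mul_assoc, H.QQ],
      by rw [mul_assoc _ P P, H.PP]⟩
    obtain ⟨y, hy, hxy⟩ := H.rg' _ h2
    rw [h0, Submodule.mem_bot] at hy
    rw [← hxy, hy, mul_zero, zero_mul]
  let U : Submodule ℂ (B → ℂ) :=
    { carrier := {u | P *ᵥ u = u}
      zero_mem' := mulVec_zero _
      add_mem' := fun {x y} hx hy => by
        change P *ᵥ (x + y) = x + y
        rw [mulVec_add, hx, hy]
      smul_mem' := fun r x hx => by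
        change P *ᵥ (r • x) = r • x
        rw [mulVec_smul, hx] }
  have hU : ∀ u, u ∈ U ↔ P *ᵥ u = u := fun _ => Iff.rfl
  have hQu : ∀ u, u ∈ U → Q *ᵥ u = 0 := by
    intro u hu
    rw [← (hU u).1 hu, mulVec_mulVec, H.QP, zero_mulVec]
  rcases H.irr U (fun u hu => by rw [add_mulVec, (hU u).1 hu, hQu u hu, add_zero]) (by
    intro X hX u hu
    rw [hU]
    have h3 : X *ᵥ u = P *ᵥ (X *ᵥ (P *ᵥ u)) := by
      nth_rewrite 1 [H.split hX, h1 X hX, h2 X hX]
      rw [add_zero, zero_add, add_mulVec, ← mulVec_mulVec u (Q * X) Q, hQu u hu, mulVec_zero,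
        add_zero, mulVec_mulVec, mulVec_mulVec]
    rw [(hU u).1 hu] at h3
    exact h3.symm) with h3 | h3
  · have h4 : P = 0 := by
      ext i j
      have h5 : P *ᵥ Pi.single j 1 ∈ U := by rw [hU, mulVec_mulVec, H.PP]
      rw [h3, Submodule.mem_bot, mulVec_single_one] at h5
      exact congrFun h5 i
    have h5 := H.trP
    rw [h4, trace_zero] at h5
    have h6 : a = 0 := by exact_mod_cast h5.symm
    omega
  · have h4 : Q = 0 := by
      ext i j
      have h5 : (P + Q) *ᵥ (Q *ᵥ Pi.single j 1) = Q *ᵥ Pi.single j 1 := by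
        rw [mulVec_mulVec, add_mul, H.PQ, H.QQ, zero_add]
      have h6 := hQu _ (h3 _ h5)
      rw [mulVec_mulVec, H.QQ, mulVec_single_one] at h6
      exact congrFun h6 i
    have h5 := H.trQ
    rw [h4, trace_zero] at h5
    have h6 : b = 0 := by exact_mod_cast h5.symm
    omega

end LieP

end Pool.Agent.N183.JP
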