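import Mathlib
import Pool.Agent.Y224.TS.R1
import Pool.Agent.Y126.JP.Setup

/-!
# The trace form of an irreducible Lie algebra
-/

set_option linter.unusedSectionVars false

namespace Pool.Agent.N183.JP

open Module
open Pool.Agent.W528.Odd (Nz unX unX_mem rN2 SIrr trace_br)

noncomputable section

variable {V : Type} [AddCommGroup V] [Module ℂ V] [FiniteDimensional ℂ V]
  {𝔤 : Submodule ℂ (End ℂ V)} (hbr : ∀ X ∈ 𝔤, ∀ Y ∈ 𝔤, X * Y - Y * X ∈ 𝔤)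
  (hirr : ∀ W : Submodule ℂ V, (∀ X ∈ 𝔤, X * X = (1 / 4 : ℂ) • 1 → ∀ u ∈ W, X u ∈ W) →
    W = ⊥ ∨ W = ⊤)

/-- The radical of the trace form on the elements of trace zero. -/
def rad0 (𝔤 : Submodule ℂ (End ℂ V)) : Submodule ℂ (End ℂ V) where
  carrier := {y | y ∈ 𝔤 ∧ LinearMap.trace ℂ V y = 0 ∧ ∀ z ∈ 𝔤, LinearMap.trace ℂ V (y * z) = 0}
  add_mem' := by
    rintro a b ⟨h1, h2, h3⟩ ⟨h4, h5, h6⟩
    exact ⟨𝔤.add_mem h1 h4, by rw [map_add, h2, h5, add_zero],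
      fun z hz => by rw [add_mul, map_add, h3 z hz, h6 z hz, add_zero]⟩
  zero_mem' := ⟨𝔤.zero_mem, map_zero _, fun z _ => by rw [zero_mul, map_zero]⟩
  smul_mem' := by
    rintro c a ⟨h1, h2, h3⟩
    exact ⟨𝔤.smul_mem _ h1, by rw [map_smul, h2, smul_zero],
      fun z hz => by rw [smul_mul_assoc, map_smul, h3 z hz, smul_zero]⟩

include hbr hirr in
theorem rad0_eq : rad0 𝔤 = ⊥ := by
  have hS : SIrr (rN2 𝔤 𝔤) := by
    refine Pool.Agent.W125.OT.SIrrT.main ℂ V _ (rN2 𝔤 𝔤) 𝔤 ?_ hirr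
    intro X hX hXX
    exact ⟨⟨unX hXX, unX_mem hXX (fun y hy => hbr X hX y hy),
      unX_mem hXX (fun y hy => hbr X hX y hy)⟩, rfl⟩
  refine Pool.Agent.W363.OT.Cart.main ℂ V _ (rN2 𝔤 𝔤) hS _ ?_ ?_ ?_ ?_
  · rintro x ⟨hx, -⟩ y ⟨hy, hy1, hy2⟩
    refine ⟨hbr x hx y hy, ?_, fun z hz => ?_⟩
    · rw [map_sub, LinearMap.trace_mul_comm, sub_self]
    · have h1 : x * y - y * x = -(y * x - x * y) := by abel
      rw [h1, neg_mul, map_neg, trace_br, hy2 _ (hbr x hx z hz), neg_zero]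
  · rintro g x ⟨hx, hx1, hx2⟩
    have h0 : LinearMap.trace ℂ V (rN2 𝔤 𝔤 g * x * rN2 𝔤 𝔤 g⁻¹) = LinearMap.trace ℂ V x := by
      rw [LinearMap.trace_mul_comm, ← mul_assoc, ← map_mul, inv_mul_cancel, map_one, one_mul]
    refine ⟨g.2.1.1 x hx, by rw [h0, hx1], fun z hz => ?_⟩
    have h1 := hx2 _ (g.2.1.2 z hz)
    have h2 : LinearMap.trace ℂ V (rN2 𝔤 𝔤 g * x * rN2 𝔤 𝔤 g⁻¹ * z) =
        LinearMap.trace ℂ V (x * (rN2 𝔤 𝔤 g⁻¹ * z * rN2 𝔤 𝔤 g)) := by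
      have h3 : rN2 𝔤 𝔤 g * x * rN2 𝔤 𝔤 g⁻¹ * z = rN2 𝔤 𝔤 g * (x * (rN2 𝔤 𝔤 g⁻¹ * z)) := by
        simp only [mul_assoc]
      rw [h3, LinearMap.trace_mul_comm]
      simp only [mul_assoc]
    exact h2.trans h1
  · rintro x ⟨-, hx, -⟩
    exact hx
  · rintro x ⟨hx, -⟩ y ⟨-, -, hy⟩
    rw [LinearMap.trace_mul_comm]
    exact hy x hx

include hbr hirr in
/-- **The trace form is nondegenerate.** -/
theorem trace_nondeg {y : End ℂ V} (hy : y ∈ 𝔤)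
    (h : ∀ z ∈ 𝔤, LinearMap.trace ℂ V (y * z) = 0) : y = 0 := by
  have hc : ∀ x ∈ 𝔤, y * x = x * y := by
    intro x hx
    have h1 : x * y - y * x ∈ rad0 𝔤 := by
      refine ⟨hbr x hx y hy, ?_, fun z hz => ?_⟩
      · rw [map_sub, LinearMap.trace_mul_comm, sub_self]
      · have h1 : x * y - y * x = -(y * x - x * y) := by abel
        rw [h1, neg_mul, map_neg, trace_br, h _ (hbr x hx z hz), neg_zero]
    rw [rad0_eq hbr hirr, Submodule.mem_bot] at h1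
    exact (sub_eq_zero.1 h1).symm
  obtain ⟨s, hs⟩ := Pool.Agent.Y126.JP.scal_of_irr (G := 𝔤)
    (fun W hW => hirr W fun X hX _ => hW X hX) y hc
  have h1 := h y hy
  rw [hs, smul_mul_smul_comm, mul_one, map_smul, LinearMap.trace_one, smul_eq_mul] at h1
  rcases mul_eq_zero.1 h1 with h2 | h2
  · rw [hs, mul_self_eq_zero.1 h2, zero_smul]
  · have h3 : finrank ℂ V = 0 := by exact_mod_cast h2
    have : Subsingleton V := Module.finrank_zero_iff.1 h3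
    exact LinearMap.ext fun v => Subsingleton.elim _ _

end

end Pool.Agent.N183.JP
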