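import Mathlib
import Pool.Agent.N183.JP.Cas

/-!
# Minimal pairs
-/

set_option linter.unusedSectionVars false

namespace Pool.Agent.N183.JP

open Matrix Module
open Pool.Agent.Y4.G (trF trF_apply exists_eig_range trace_idemM trace_idemOp rank_mul_lt
  finrank_eq_one_of finrank_le_of_maps)
open Pool.Agent.Y4.G.Lie (pos mem_pos)

variable {B : Type*} [Fintype B] [DecidableEq B]

/-- A minimal pair with its projectors. -/
structure TrpP (G : Submodule ℂ (Matrix B B ℂ)) (P Q : Matrix B B ℂ) (e f p q : Matrix B B ℂ) :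
    Prop where
  mem : e ∈ pos G P Q
  fmem : f ∈ pos G Q P
  ne : e ≠ 0
  pe : p * e = e
  eq : e * q = e
  pp : p * p = p
  qq : q * q = q
  ef : e * f = p
  fe : f * e = q
  qf : q * f = f
  fp : f * p = f
  Pp : P * p = p
  pP : p * P = p
  qQ : q * Q = q
  Qu : Q * q = q
  one : ∀ x ∈ pos G P Q, p * x * q = x → ∃ c : ℂ, x = c • e
  one' : ∀ y ∈ pos G Q P, q * y * p = y → ∃ c : ℂ, y = c • f
  tmem : ∀ x ∈ pos G P Q, p * x + x * q ∈ pos G P Q
  mem2 : ∀ x ∈ pos G P Q, p * x * q ∈ pos G P Q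
  mem2' : ∀ y ∈ pos G Q P, q * y * p ∈ pos G Q P

variable {G : Submodule ℂ (Matrix B B ℂ)} {P Q : Matrix B B ℂ} {a b : ℕ}

theorem exists_trp (H : LieP G P Q a b) (ha : 0 < a) (hb : 0 < b) :
    ∃ e f p q, TrpP G P Q e f p q := by
  have hW := H.pos_ne_bot ha hb
  obtain ⟨e, ⟨he, he0⟩, hmin⟩ : ∃ e, (e ∈ pos G P Q ∧ e ≠ 0) ∧
      ∀ y, (y ∈ pos G P Q ∧ y ≠ 0) → e.rank ≤ y.rank := by
    obtain ⟨x, hx, hx0⟩ := (Submodule.ne_bot_iff _).1 hW
    have hne : {y : Matrix B B ℂ | y ∈ pos G P Q ∧ y ≠ 0}.Nonempty := ⟨x, hx, hx0⟩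
    obtain ⟨e, he, hmin⟩ := WellFounded.has_min (measure (fun y : Matrix B B ℂ => y.rank)).wf _ hne
    exact ⟨e, he, fun y hy => not_lt.1 (hmin y hy)⟩
  have hz : ∀ y ∈ pos G P Q, y.rank < e.rank → y = 0 := by
    intro y hy hlt
    by_contra h0
    exact absurd (hmin y ⟨hy, h0⟩) (not_le.2 hlt)
  obtain ⟨f', hf', hef'⟩ := H.rg e he
  obtain ⟨f, hf⟩ : ∃ f, f = f' * e * f' := ⟨_, rfl⟩
  have hfm : f ∈ pos G Q P := by rw [hf]; exact H.symm.quad hf' he
  have hefe : e * f * e = e := by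
    calc e * f * e = (e * f' * e) * f' * e := by rw [hf]; noncomm_ring
    _ = e := by rw [hef', hef']
  have hfef : f * e * f = f := by
    calc f * e * f = f' * ((e * f' * e) * f' * e) * f' := by rw [hf]; noncomm_ring
    _ = f := by rw [hef', hef', hf]
  obtain ⟨p, hp⟩ : ∃ p, p = e * f := ⟨_, rfl⟩
  obtain ⟨q, hq⟩ : ∃ q, q = f * e := ⟨_, rfl⟩
  have hpe : p * e = e := by rw [hp, hefe]
  have heq : e * q = e := by rw [hq, ← mul_assoc, hefe]
  have hpp : p * p = p := by nth_rewrite 2 [hp]; rw [← mul_assoc, hpe, ← hp]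
  have hqq : q * q = q := by nth_rewrite 1 [hq]; rw [mul_assoc, heq, ← hq]
  have hqf : q * f = f := by rw [hq, hfef]
  have hfp : f * p = f := by rw [hp, ← mul_assoc, hfef]
  have hone : ∀ x ∈ pos G P Q, p * x * q = x → ∃ c : ℂ, x = c • e := by
    intro x hx hpx
    have hpx' : p * x = x := by rw [← hpx, ← mul_assoc, ← mul_assoc, hpp]
    have hxq' : x * q = x := by rw [← hpx, mul_assoc _ q q, hqq]
    obtain ⟨μ, w, hw, hw0, hew⟩ := exists_eig_range (N := x * f) he0 (by
      intro v _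
      refine ⟨f *ᵥ ((x * f) *ᵥ v), ?_⟩
      rw [mulVecLin_apply, mulVec_mulVec _ e, ← hp, mulVec_mulVec, ← mul_assoc, hpx'])
    have h5 : (x * f - μ • 1) * e = x - μ • e := by
      rw [sub_mul, Matrix.smul_mul, one_mul, mul_assoc, ← hq, hxq']
    have h6 := hz _ (Submodule.sub_mem _ hx (Submodule.smul_mem _ μ he))
      (by
        rw [← h5]
        refine rank_mul_lt hw hw0 ?_
        rw [sub_mulVec, hew, smul_mulVec, one_mulVec, sub_self])
    exact ⟨μ, sub_eq_zero.1 h6⟩
  have hTmem : ∀ x ∈ pos G P Q, p * x + x * q ∈ pos G P Q := by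
    intro x hx
    have h1 := H.tri he hfm hx
    rwa [← hp, mul_assoc x, ← hq] at h1
  have hmem2 : ∀ x ∈ pos G P Q, p * x * q ∈ pos G P Q := by
    intro x hx
    have h1 := Submodule.smul_mem _ (2 : ℂ)⁻¹
      (Submodule.sub_mem _ (hTmem _ (hTmem x hx)) (hTmem x hx))
    have h2 : p * (p * x + x * q) + (p * x + x * q) * q - (p * x + x * q) =
        (2 : ℂ) • (p * x * q) := by
      have h3 : p * (p * x + x * q) + (p * x + x * q) * q - (p * x + x * q) =
          (p * p) * x + p * x * q + (p * x * q + x * (q * q)) - (p * x + x * q) := by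
        noncomm_ring
      rw [h3, hpp, hqq, two_smul]
      abel
    rwa [h2, smul_smul, inv_mul_cancel₀ two_ne_zero, one_smul] at h1
  have hTmem' : ∀ y ∈ pos G Q P, q * y + y * p ∈ pos G Q P := by
    intro y hy
    have h1 := H.symm.tri hfm he hy
    rwa [← hq, mul_assoc y, ← hp] at h1
  refine ⟨e, f, p, q,
    { mem := he
      fmem := hfm
      ne := he0
      pe := hpe
      eq := heq
      pp := hpp
      qq := hqq
      ef := hp.symm
      fe := hq.symm
      qf := hqf
      fp := hfp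
      Pp := by rw [hp, ← mul_assoc, he.2.1]
      pP := by rw [hp, mul_assoc, hfm.2.2]
      qQ := by rw [hq, mul_assoc, he.2.2]
      Qu := by rw [hq, ← mul_assoc, hfm.2.1]
      one := hone
      one' := fun y hy hyy => by
        obtain ⟨c, hc⟩ := hone (e * y * e) (H.quad he hy) (by
          rw [← mul_assoc, ← mul_assoc, hpe, mul_assoc _ e, heq])
        refine ⟨c, ?_⟩
        calc y = q * y * p := hyy.symm
        _ = f * (e * y * e) * f := by rw [hq, hp]; noncomm_ring
        _ = c • f := by rw [hc, Matrix.mul_smul, Matrix.smul_mul, hfef]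
      tmem := hTmem
      mem2 := hmem2
      mem2' := fun x hx => by
        have h1 := Submodule.smul_mem _ (2 : ℂ)⁻¹
          (Submodule.sub_mem _ (hTmem' _ (hTmem' x hx)) (hTmem' x hx))
        have h2 : q * (q * x + x * p) + (q * x + x * p) * p - (q * x + x * p) =
            (2 : ℂ) • (q * x * p) := by
          have h3 : q * (q * x + x * p) + (q * x + x * p) * p - (q * x + x * p) =
              (q * q) * x + q * x * p + (q * x * p + x * (p * p)) - (q * x + x * p) := by
            noncomm_ring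
          rw [h3, hpp, hqq, two_smul]
          abel
        rwa [h2, smul_smul, inv_mul_cancel₀ two_ne_zero, one_smul] at h1 }⟩

namespace TrpP

variable {e f p q : Matrix B B ℂ} (k : TrpP G P Q e f p q)
include k

theorem mem0 {x : Matrix B B ℂ} (hx : x ∈ pos G P Q) : (P - p) * x * (Q - q) ∈ pos G P Q := by
  have h1 := Submodule.sub_mem _ (Submodule.add_mem _ hx (k.mem2 x hx)) (k.tmem x hx)
  have h2 : x + p * x * q - (p * x + x * q) = (P - p) * x * (Q - q) := by
    have h3 : (P - p) * x * (Q - q) = (P * x) * Q - (P * x) * q - p * (x * Q) + p * x * q := by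
      noncomm_ring
    rw [h3, hx.2.1, hx.2.2]
    abel
  rwa [h2] at h1

theorem trpq : trace q = trace p := by
  rw [← k.fe, ← k.ef, trace_mul_comm]

theorem idP (hP : P * P = P) : (P - p) * (P - p) = P - p := by
  rw [sub_mul, mul_sub, mul_sub, hP, k.pp, k.Pp, k.pP]
  abel

theorem idQ (hQ : Q * Q = Q) : (Q - q) * (Q - q) = Q - q := by
  rw [sub_mul, mul_sub, mul_sub, hQ, k.qq, k.Qu, k.qQ]
  abel

/-- The relation between the dimensions. -/
theorem rel (H : LieP G P Q a b) :
    ∃ m c : ℕ, trace p = m ∧ 1 ≤ m ∧ c + 2 * m ≤ a + b ∧ 1 ≤ finrank ℂ (pos G P Q) ∧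
      a * b * (2 + c) = finrank ℂ (pos G P Q) * (b * m + a * m) := by
  have hone := k.one
  have hpe := k.pe
  have heq := k.eq
  have hpp := k.pp
  have hqq := k.qq
  have hPe : P * e = e := k.mem.2.1
  have heQ : e * Q = e := k.mem.2.2
  have hPp := k.Pp
  have hqQ := k.qQ
  have hpP := k.pP
  have hQ1q := k.Qu
  have hTmem := k.tmem
  have h2mem := k.mem2
  obtain ⟨T, hT⟩ : ∃ T : pos G P Q →ₗ[ℂ] pos G P Q, ∀ x : pos G P Q,
      ((T x : pos G P Q) : Matrix B B ℂ) = p * x + x * q :=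
    ⟨{ toFun := fun x => ⟨p * x + x * q, hTmem x x.2⟩
       map_add' := fun x y => Subtype.ext (by
        change p * ((x : Matrix B B ℂ) + y) + (x + y) * q = (p * x + x * q) + (p * y + y * q)
        noncomm_ring)
       map_smul' := fun c x => Subtype.ext (by
        change p * (c • (x : Matrix B B ℂ)) + (c • (x : Matrix B B ℂ)) * q = c • (p * x + x * q)
        rw [Matrix.mul_smul, Matrix.smul_mul, smul_add]) }, fun _ => rfl⟩
  obtain ⟨π2, hπ2⟩ : ∃ T : pos G P Q →ₗ[ℂ] pos G P Q, ∀ x : pos G P Q,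
      ((T x : pos G P Q) : Matrix B B ℂ) = p * x * q :=
    ⟨{ toFun := fun x => ⟨p * x * q, h2mem x x.2⟩
       map_add' := fun x y => Subtype.ext (by
        change p * ((x : Matrix B B ℂ) + y) * q = p * x * q + p * y * q
        noncomm_ring)
       map_smul' := fun c x => Subtype.ext (by
        change p * (c • (x : Matrix B B ℂ)) * q = c • (p * x * q)
        rw [Matrix.mul_smul, Matrix.smul_mul]) }, fun _ => rfl⟩
  obtain ⟨π1, hπ1e⟩ : ∃ π1, π1 = T - (2 : ℂ) • π2 := ⟨_, rfl⟩
  have hπ1 : ∀ x : pos G P Q, ((π1 x : pos G P Q) : Matrix B B ℂ) =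
      p * x + x * q - (2 : ℂ) • (p * x * q) := by
    intro x
    rw [hπ1e, ← hT, ← hπ2]
    rfl
  have hTeq : T = (2 : ℂ) • π2 + π1 := by
    rw [hπ1e]
    abel
  have hid2 : ∀ x, π2 (π2 x) = π2 x := by
    intro x
    apply Subtype.ext
    rw [hπ2, hπ2]
    calc p * (p * x * q) * q = (p * p) * x * (q * q) := by noncomm_ring
    _ = _ := by rw [hpp, hqq]
  have hx1 : ∀ x : pos G P Q, p * ((π1 x : pos G P Q) : Matrix B B ℂ) * q = 0 := by
    intro x
    rw [hπ1]
    have h3 : p * (p * x + x * q - (2 : ℂ) • (p * x * q)) * q =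
        (p * p) * x * q + p * x * (q * q) - (2 : ℂ) • ((p * p) * x * (q * q)) := by
      rw [mul_sub, sub_mul, Matrix.mul_smul, Matrix.smul_mul]
      noncomm_ring
    rw [h3, hpp, hqq, two_smul]
    abel
  have hid1 : ∀ x, π1 (π1 x) = π1 x := by
    intro x
    apply Subtype.ext
    rw [hπ1 (π1 x), hx1, smul_zero, sub_zero, hπ1]
    have h3 : p * (p * x + x * q - (2 : ℂ) • (p * x * q)) +
        (p * x + x * q - (2 : ℂ) • (p * x * q)) * q =
        (p * p) * x + p * x * q - (2 : ℂ) • ((p * p) * x * q) +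
        (p * x * q + x * (q * q) - (2 : ℂ) • (p * x * (q * q))) := by
      rw [mul_sub, sub_mul, Matrix.mul_smul, Matrix.smul_mul]
      noncomm_ring
    rw [h3, hpp, hqq, two_smul]
    abel
  have hW1 : ∀ x : pos G P Q, x ∈ LinearMap.range π1 → p * (x : Matrix B B ℂ) * q = 0 ∧
      p * (x : Matrix B B ℂ) + x * q = x := by
    rintro _ ⟨x, rfl⟩
    refine ⟨hx1 x, ?_⟩
    have h3 := congrArg Subtype.val (hid1 x)
    rw [hπ1 (π1 x), hx1, smul_zero, sub_zero] at h3
    exact h3
  -- the dimensions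
  have htr2 : finrank ℂ (LinearMap.range π2) = 1 := by
    refine finrank_eq_one_of _ (e := (⟨e, k.mem⟩ : pos G P Q)) ⟨⟨e, k.mem⟩, Subtype.ext (by
      rw [hπ2]
      change p * e * q = e
      rw [hpe, heq])⟩ (fun h0 => k.ne (congrArg Subtype.val h0)) ?_
    rintro _ ⟨y, rfl⟩
    obtain ⟨c, hc⟩ := hone _ (π2 y).2 (by
      have h3 := congrArg Subtype.val (hid2 y)
      rw [hπ2 (π2 y)] at h3
      exact h3)
    exact ⟨c, Subtype.ext hc⟩
  obtain ⟨c', hk⟩ : ∃ c', c' = finrank ℂ (LinearMap.range π1) := ⟨_, rfl⟩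
  obtain ⟨m, hm⟩ : ∃ m, m = finrank ℂ (LinearMap.range (mulVecLin p)) := ⟨_, rfl⟩
  have htrT : LinearMap.trace ℂ (pos G P Q) T = 2 + c' := by
    rw [hTeq, map_add, map_smul, trace_idemOp hid2, trace_idemOp hid1, htr2, ← hk, smul_eq_mul]
    push_cast
    ring
  have htrp : trace p = m := by rw [trace_idemM hpp, hm]
  have htrq : trace q = m := by rw [k.trpq, htrp]
  have hm1 : 1 ≤ m := by
    rw [Nat.one_le_iff_ne_zero]
    rintro rfl
    have h2 : p = 0 := idem_zero hpp (by rw [htrp, Nat.cast_zero])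
    apply k.ne
    rw [← hpe, h2, zero_mul]
  have hd1 : 1 ≤ finrank ℂ (pos G P Q) := by
    rw [Nat.one_le_iff_ne_zero]
    intro h0
    rw [Submodule.finrank_eq_zero] at h0
    have h1 := k.mem
    rw [h0, Submodule.mem_bot] at h1
    exact k.ne h1
  -- the bound
  have hbound : c' + 2 * m ≤ a + b := by
    obtain ⟨u, hu⟩ : ∃ u, e *ᵥ u ≠ 0 := by
      by_contra hcon
      push Not at hcon
      apply k.ne
      ext i j
      have := congrFun (hcon (Pi.single j 1)) i
      rwa [mulVec_single_one] at this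
    obtain ⟨v, hv⟩ : ∃ v, v = q *ᵥ u := ⟨_, rfl⟩
    have hqv : q *ᵥ v = v := by rw [hv, mulVec_mulVec, hqq]
    have hev : e *ᵥ v ≠ 0 := by rw [hv, mulVec_mulVec, heq]; exact hu
    obtain ⟨i, hi⟩ : ∃ i, (e *ᵥ v) i ≠ 0 := by
      by_contra hcon
      push Not at hcon
      exact hev (funext hcon)
    obtain ⟨w, hw⟩ : ∃ w : B → ℂ, w = Pi.single i 1 ᵥ* p := ⟨_, rfl⟩
    have hwp : w ᵥ* p = w := by rw [hw, vecMul_vecMul, hpp]
    have hwev : w ⬝ᵥ (e *ᵥ v) ≠ 0 := by
      rw [hw, ← dotProduct_mulVec, mulVec_mulVec, hpe, single_one_dotProduct]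
      exact hi
    have hPp2 : (P - p) * (P - p) = P - p := k.idP H.PP
    have hQ1q2 : (Q - q)ᵀ * (Q - q)ᵀ = (Q - q)ᵀ := by
      rw [← transpose_mul, k.idQ H.QQ]
    obtain ⟨a', ha'⟩ : ∃ a', a' = finrank ℂ (LinearMap.range (mulVecLin (P - p))) := ⟨_, rfl⟩
    obtain ⟨b', hb'⟩ : ∃ b', b' = finrank ℂ (LinearMap.range (mulVecLin (Q - q)ᵀ)) := ⟨_, rfl⟩
    have ha2 : a' + m = a := by
      have h1 := trace_idemM hPp2
      rw [← ha', trace_sub, H.trP, htrp, sub_eq_iff_eq_add] at h1
      exact_mod_cast h1.symm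
    have hb2 : b' + m = b := by
      have h1 := trace_idemM hQ1q2
      rw [← hb', trace_transpose, trace_sub, H.trQ, htrq, sub_eq_iff_eq_add] at h1
      exact_mod_cast h1.symm
    let f1 : pos G P Q →ₗ[ℂ] (B → ℂ) :=
      { toFun := fun x => (x : Matrix B B ℂ) *ᵥ v
        map_add' := fun x y => by
          change ((x : Matrix B B ℂ) + (y : Matrix B B ℂ)) *ᵥ v = _ *ᵥ v + _ *ᵥ v
          rw [add_mulVec]
        map_smul' := fun c x => by
          change (c • (x : Matrix B B ℂ)) *ᵥ v = c • (_ *ᵥ v)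
          rw [smul_mulVec] }
    let g1 : pos G P Q →ₗ[ℂ] (B → ℂ) :=
      { toFun := fun x => w ᵥ* (x : Matrix B B ℂ)
        map_add' := fun x y => by
          change w ᵥ* ((x : Matrix B B ℂ) + (y : Matrix B B ℂ)) = w ᵥ* _ + w ᵥ* _
          rw [vecMul_add]
        map_smul' := fun c x => by
          change w ᵥ* (c • (x : Matrix B B ℂ)) = c • (w ᵥ* _)
          rw [vecMul_smul] }
    have h1 := finrank_le_of_maps (LinearMap.range π1) f1 g1
      (LinearMap.range (mulVecLin (P - p))) (LinearMap.range (mulVecLin (Q - q)ᵀ)) ?_ ?_ ?_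
    · rw [← hk, ← ha', ← hb'] at h1
      omega
    · intro x hx
      obtain ⟨h1, h2⟩ := hW1 x hx
      obtain ⟨h3, h4⟩ := x.2.2
      refine ⟨(x : Matrix B B ℂ) *ᵥ v, ?_⟩
      rw [mulVecLin_apply, sub_mulVec, mulVec_mulVec, h3]
      have h5 : p *ᵥ ((x : Matrix B B ℂ) *ᵥ v) = 0 := by
        rw [← hqv, mulVec_mulVec, mulVec_mulVec, h1, zero_mulVec]
      rw [h5, sub_zero]
      rfl
    · intro x hx
      obtain ⟨h1, h2⟩ := hW1 x hx
      obtain ⟨h3, h4⟩ := x.2.2
      refine ⟨w ᵥ* (x : Matrix B B ℂ), ?_⟩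
      rw [mulVecLin_apply, mulVec_transpose, vecMul_sub, vecMul_vecMul, h4]
      have h5 : (w ᵥ* (x : Matrix B B ℂ)) ᵥ* q = 0 := by
        rw [← hwp, vecMul_vecMul, vecMul_vecMul, ← mul_assoc, h1, vecMul_zero]
      rw [h5, sub_zero]
      rfl
    · intro x hx hf hg
      obtain ⟨h1, h2⟩ := hW1 x hx
      obtain ⟨X, hX⟩ : ∃ X, X = (x : Matrix B B ℂ) := ⟨_, rfl⟩
      have hXW : X ∈ pos G P Q := by rw [hX]; exact x.2
      have hxv : X *ᵥ v = 0 := by
        rw [hX]
        exact hf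
      have hxw : w ᵥ* X = 0 := by
        rw [hX]
        exact hg
      rw [← hX] at h1 h2
      -- the elements of degree minus one
      have key : ∀ Y ∈ pos G Q P, q * Y * p = 0 → trace (X * Y) = 0 := by
        intro Y hY hYp
        obtain ⟨y, hy⟩ : ∃ y, y = X * Y * e + e * Y * X := ⟨_, rfl⟩
        have hyW : y ∈ pos G P Q := by rw [hy]; exact H.tri hXW hY k.mem
        have h5 : q * Y * e = 0 := by
          rw [← hpe, ← mul_assoc, hYp, zero_mul]
        have h6 : e * Y * p = 0 := by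
          rw [← heq, mul_assoc e, mul_assoc e, hYp, mul_zero]
        have h7 : X * Y * e = p * (X * Y * e) := by
          nth_rewrite 1 [← h2]
          have h8 : (p * X + X * q) * Y * e = p * (X * Y * e) + X * (q * Y * e) := by
            noncomm_ring
          rw [h8, h5, mul_zero, add_zero]
        have h8 : e * Y * X = e * Y * X * q := by
          have h9 : e * Y * (p * X + X * q) = (e * Y * p) * X + e * Y * X * q := by
            noncomm_ring
          rw [h2, h6, zero_mul, zero_add] at h9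
          exact h9
        have hpyq : p * y * q = y := by
          rw [hy]
          have h9 : p * (X * Y * e + e * Y * X) * q =
              p * (X * Y * e) * q + (p * e) * Y * X * q := by noncomm_ring
          rw [h9, ← h7, hpe, ← h8, mul_assoc _ e q, heq]
        obtain ⟨c, hc⟩ := hone y hyW hpyq
        have hyv : w ⬝ᵥ (y *ᵥ v) = 0 := by
          rw [hy, add_mulVec, ← mulVec_mulVec v (e * Y) X, hxv, mulVec_zero, add_zero,
            mul_assoc X, ← mulVec_mulVec, dotProduct_mulVec, hxw, zero_dotProduct]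
        have hc0 : c = 0 := by
          rw [hc, smul_mulVec, dotProduct_smul] at hyv
          exact (smul_eq_zero.1 hyv).resolve_right hwev
        have hy0 : y = 0 := by rw [hc, hc0, zero_smul]
        have htr : trace (y * f) = trace (X * Y) := by
          rw [hy, add_mul, trace_add]
          have e1 : trace (X * Y * e * f) = trace (p * (X * Y)) := by
            rw [mul_assoc, k.ef, trace_mul_comm]
          have e2 : trace (e * Y * X * f) = trace (X * q * Y) := by
            rw [trace_mul_comm, mul_assoc e, ← mul_assoc, k.fe, mul_assoc X, trace_mul_comm X,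
              mul_assoc q]
          rw [e1, e2, ← trace_add]
          congr 1
          have h9 : (p * X + X * q) * Y = p * (X * Y) + X * q * Y := by noncomm_ring
          rw [h2] at h9
          exact h9.symm
        rw [← htr, hy0, zero_mul, trace_zero]
      apply Subtype.ext
      rw [← hX]
      refine H.nondeg hXW fun Y hY => ?_
      have h3 := key (Y - q * Y * p) (Submodule.sub_mem _ hY (k.mem2' Y hY)) (by
        have h4 : q * (Y - q * Y * p) * p = q * Y * p - (q * q) * Y * (p * p) := by noncomm_ring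
        rw [h4, hqq, hpp, sub_self])
      have h4 : trace (X * (q * Y * p)) = 0 := by
        have h5 : trace (X * (q * Y * p)) = trace (p * X * q * Y) := by
          rw [trace_mul_comm, mul_assoc (q * Y), mul_assoc q Y, trace_mul_comm q, mul_assoc Y,
            trace_mul_comm Y]
        rw [h5, h1, zero_mul, trace_zero]
      rw [mul_sub, trace_sub, h4, sub_zero] at h3
      exact h3
  have hcas := H.cas p q T hPp hqQ hT
  rw [htrT, htrp, htrq] at hcas
  have hnat : a * b * (2 + c') = finrank ℂ (pos G P Q) * (b * m + a * m) := by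
    exact_mod_cast hcas
  exact ⟨m, c', htrp, hm1, hbound, hd1, hnat⟩

end TrpP

/-- There are no elements of rank one. -/
def NR1 (G : Submodule ℂ (Matrix B B ℂ)) (P Q : Matrix B B ℂ) : Prop :=
  ∀ x ∈ pos G P Q, ∀ u : B → ℂ, (∀ v, ∃ c : ℂ, x *ᵥ v = c • u) → x = 0

/-- The rank of a minimal element if there are no elements of rank one. -/
theorem TrpP.two_le {e f p q : Matrix B B ℂ} (k : TrpP G P Q e f p q) (hNR : NR1 G P Q) {m : ℕ}
    (hm : trace p = m) (hm1 : 1 ≤ m) : 2 ≤ m := by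
  by_contra hcon
  obtain rfl : m = 1 := by omega
  have h1 := trace_idemM k.pp
  rw [hm] at h1
  have h2 : finrank ℂ (LinearMap.range (mulVecLin p)) = 1 := by exact_mod_cast h1.symm
  obtain ⟨⟨u, hu⟩, -, hspan⟩ := finrank_eq_one_iff'.1 h2
  refine k.ne (hNR e k.mem u fun v => ?_)
  obtain ⟨c, hc⟩ := hspan ⟨p *ᵥ (e *ᵥ v), e *ᵥ v, rfl⟩
  refine ⟨c, ?_⟩
  have h3 := congrArg Subtype.val hc
  change c • u = p *ᵥ (e *ᵥ v) at h3
  rw [mulVec_mulVec, k.pe] at h3
  exact h3.symm

/-- Coprime multiplicities. -/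
theorem rk1_coprime (H : LieP G P Q a b) (ha : 0 < a) (hb : 0 < b) (hcop : Nat.Coprime a b) :
    ¬NR1 G P Q := by
  intro hNR
  obtain ⟨e, f, p, q, k⟩ := exists_trp H ha hb
  obtain ⟨m, c, hm, hm1, hc, hd, hrel⟩ := k.rel H
  have h2 := k.two_le hNR hm hm1
  -- `a + b` divides `2 + c`
  have h3 : finrank ℂ (pos G P Q) * (b * m + a * m) = finrank ℂ (pos G P Q) * m * (a + b) := by
    ring
  rw [h3] at hrel
  have hab : Nat.Coprime (a + b) (a * b) := by
    refine Nat.Coprime.mul_right ?_ ?_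
    · rw [Nat.coprime_self_add_left]
      exact hcop.symm
    · rw [Nat.coprime_add_self_left]
      exact hcop
  have h4 : (a + b) ∣ a * b * (2 + c) := ⟨finrank ℂ (pos G P Q) * m, by rw [hrel]; ring⟩
  have h5 : (a + b) ∣ (2 + c) := hab.dvd_of_dvd_mul_left h4
  have h6 : a + b ≤ 2 + c := Nat.le_of_dvd (by omega) h5
  omega

end Pool.Agent.N183.JP
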