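import Mathlib
import Pool.Agent.N183.JP.Trp
import Pool.Agent.R915.D4

/-!
# Lie algebras of the format (2, 2) without elements of rank one
-/

set_option linter.unusedSectionVars false

namespace Pool.Agent.N183.JP

open Matrix Module
open Pool.Agent.Y4.G (trace_idemM trace_idemOp finrank_eq_one_of)
open Pool.Agent.Y4.G.Lie (pos mem_pos)
open Pool.Agent.R915 (exists_frame trace_frame NBil)

variable {B : Type*} [Fintype B] [DecidableEq B]

variable {G : Submodule ℂ (Matrix B B ℂ)} {P Q : Matrix B B ℂ}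

/-- The half of the form. -/
def bt (ψ φ : Fin 2 → (B → ℂ) →ₗ[ℂ] ℂ) (u v : B → ℂ) : ℂ := φ 0 u * ψ 1 v - φ 1 u * ψ 0 v

/-- There are elements of rank one. -/
theorem rk1_two (H : LieP G P Q 2 2) (T0 : ∀ X ∈ G, trace X = 0) (NB : NBil G P Q) :
    ¬NR1 G P Q := by
  intro hNR
  obtain ⟨e, e', p, q, k⟩ := exists_trp H (by norm_num) (by norm_num)
  obtain ⟨m, c, hm, hm1, hc, hd, hrel⟩ := k.rel H
  have h2 := k.two_le hNR hm hm1
  obtain rfl : m = 2 := by omega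
  have hp : P - p = 0 := idem_zero (k.idP H.PP) (by
    rw [trace_sub, H.trP, hm, sub_self])
  have hq : Q - q = 0 := idem_zero (k.idQ H.QQ) (by
    rw [trace_sub, H.trQ, k.trpq, hm, sub_self])
  obtain rfl : P = p := sub_eq_zero.1 hp
  obtain rfl : Q = q := sub_eq_zero.1 hq
  have hpos : ∀ x ∈ pos G P Q, ∃ c : ℂ, x = c • e := fun x hx =>
    k.one x hx (by rw [hx.2.1, hx.2.2])
  have hneg : ∀ y ∈ pos G Q P, ∃ c : ℂ, y = c • e' := fun y hy =>
    k.one' y hy (by rw [hy.2.1, hy.2.2])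
  obtain ⟨f, ψ, hf1, hf2, hf3, hf4⟩ := exists_frame H.QQ (n := 2) H.trQ
  obtain ⟨φ, hφ⟩ : ∃ φ : Fin 2 → (B → ℂ) →ₗ[ℂ] ℂ, ∀ i v, φ i v = ψ i (e' *ᵥ v) :=
    ⟨fun i => (ψ i).comp (mulVecLin e'), fun _ _ => rfl⟩
  obtain ⟨g, hg⟩ : ∃ g : Fin 2 → B → ℂ, ∀ i, g i = e *ᵥ f i := ⟨fun i => _, fun _ => rfl⟩
  have hφe : ∀ i v, φ i (e *ᵥ v) = ψ i v := by
    intro i v
    rw [hφ, mulVec_mulVec, k.fe, hf4]
  have hφg : ∀ i j, φ i (g j) = if i = j then 1 else 0 := by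
    intro i j
    rw [hg, hφe, hf3]
  have hPv : ∀ v, P *ᵥ v = ∑ i, φ i v • g i := by
    intro v
    have h3 : P *ᵥ v = e *ᵥ (Q *ᵥ (e' *ᵥ v)) := by
      rw [mulVec_mulVec, mulVec_mulVec, k.eq, k.ef]
    rw [h3, hf2, mulVec_sum]
    refine Finset.sum_congr rfl fun i _ => ?_
    rw [mulVec_smul, hφ, hg]
  have hφP : ∀ i v, φ i (P *ᵥ v) = φ i v := by
    intro i v
    rw [hφ, hφ, mulVec_mulVec, k.fmem.2.2]
  have hPg : ∀ i, P *ᵥ g i = g i := by
    intro i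
    rw [hg, mulVec_mulVec, k.pe]
  have hφQ : ∀ i v, φ i (Q *ᵥ v) = 0 := by
    intro i v
    rw [← hφP, mulVec_mulVec, H.PQ, zero_mulVec, map_zero]
  have hψP : ∀ i v, ψ i (P *ᵥ v) = 0 := by
    intro i v
    rw [← hf4, mulVec_mulVec, H.QP, zero_mulVec, map_zero]
  have hφf : ∀ i j, φ i (f j) = 0 := by
    intro i j
    rw [← hf1, hφQ]
  have hψg : ∀ i j, ψ i (g j) = 0 := by
    intro i j
    rw [← hPg, hψP]
  -- the half of the form
  obtain ⟨b, hb⟩ : ∃ b : (B → ℂ) → (B → ℂ) → ℂ, b = bt ψ φ := ⟨_, rfl⟩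
  have hb' : ∀ u v, b u v = φ 0 u * ψ 1 v - φ 1 u * ψ 0 v := by
    intro u v
    rw [hb]
    rfl
  have badd1 : ∀ u u' v, b (u + u') v = b u v + b u' v := by
    intro u u' v
    simp only [hb', map_add]
    ring
  have badd2 : ∀ u v v', b u (v + v') = b u v + b u v' := by
    intro u v v'
    simp only [hb', map_add]
    ring
  have bsmul1 : ∀ (r : ℂ) u v, b (r • u) v = r * b u v := by
    intro r u v
    simp only [hb', map_smul, smul_eq_mul]
    ring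
  have bsmul2 : ∀ (r : ℂ) u v, b u (r • v) = r * b u v := by
    intro r u v
    simp only [hb', map_smul, smul_eq_mul]
    ring
  have bsub1 : ∀ u u' v, b (u - u') v = b u v - b u' v := by
    intro u u' v
    simp only [hb', map_sub]
    ring
  have bP : ∀ u v, b (P *ᵥ u) v = b u v := by
    intro u v
    simp only [hb', hφP]
  have bQ : ∀ u v, b u (Q *ᵥ v) = b u v := by
    intro u v
    simp only [hb', hf4]
  have bQ0 : ∀ u v, b (Q *ᵥ u) v = 0 := by
    intro u v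
    simp only [hb', hφQ]
    ring
  have bP0 : ∀ u v, b u (P *ᵥ v) = 0 := by
    intro u v
    simp only [hb', hψP]
    ring
  have hW : ∀ x ∈ pos G P Q, ∀ u v, b (x *ᵥ u) v + b (x *ᵥ v) u = 0 := by
    intro x hx u v
    obtain ⟨r, rfl⟩ := hpos x hx
    simp only [hb', smul_mulVec, map_smul, smul_eq_mul, hφe]
    ring
  have hy0 : ∀ y ∈ pos G Q P, ∀ u v, b v (y *ᵥ u) + b u (y *ᵥ v) = 0 := by
    intro y hy u v
    obtain ⟨r, rfl⟩ := hneg y hy
    simp only [hb', smul_mulVec, map_smul, smul_eq_mul, ← hφ]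
    ring
  -- elements of degree zero
  have hz0 : ∀ z ∈ G, P * z = z * P → ∀ u v, b (z *ᵥ u) v + b u (z *ᵥ v) = 0 := by
    intro z hz hzP
    have hzQ := H.comm_Q hz hzP
    have key : ∀ u v, (b (z *ᵥ (e *ᵥ u)) v + b (e *ᵥ u) (z *ᵥ v)) +
        (b (z *ᵥ (e *ᵥ v)) u + b (e *ᵥ v) (z *ᵥ u)) = 0 := by
      intro u v
      have h1 := hW _ (H.br_pos k.mem hz hzP hzQ) u v
      have h2 := hW e k.mem (z *ᵥ u) v
      have h3 := hW e k.mem (z *ᵥ v) u
      rw [sub_mulVec, sub_mulVec, bsub1, bsub1, ← mulVec_mulVec, ← mulVec_mulVec,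
        ← mulVec_mulVec, ← mulVec_mulVec] at h1
      linear_combination h1 + h2 + h3
    obtain ⟨m, hm⟩ : ∃ m : Fin 2 → Fin 2 → ℂ, ∀ i j, m i j = b (z *ᵥ g i) (f j) +
      b (g i) (z *ᵥ f j) := ⟨fun i j => _, fun _ _ => rfl⟩
    have m00 : m 0 0 = 0 := by
      have h1 := key (f 0) (f 0)
      rw [← hg, ← hm] at h1
      linear_combination h1 / 2
    have m11 : m 1 1 = 0 := by
      have h1 := key (f 1) (f 1)
      rw [← hg, ← hm] at h1
      linear_combination h1 / 2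
    have m10 : m 1 0 = -m 0 1 := by
      have h1 := key (f 0) (f 1)
      rw [← hg, ← hg, ← hm, ← hm] at h1
      linear_combination h1
    have n01 : m 0 1 = φ 0 (z *ᵥ g 0) + ψ 1 (z *ᵥ f 1) := by
      rw [hm, hb', hb']
      simp [hf3, hφg]
    have n10 : m 1 0 = -(φ 1 (z *ᵥ g 1) + ψ 0 (z *ᵥ f 0)) := by
      rw [hm, hb', hb']
      simp [hf3, hφg]
      ring
    have htr : trace z = 2 * m 0 1 := by
      have h1 : z = z * P + z * Q := by rw [← mul_add, H.ler z hz]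
      rw [h1, trace_add, trace_frame hPv, trace_frame hf2, Fin.sum_univ_two,
        Fin.sum_univ_two]
      linear_combination -n01 + n10 - m10
    rw [T0 z hz] at htr
    have m01 : m 0 1 = 0 := by linear_combination -htr / 2
    rw [m01, neg_zero] at m10
    intro u v
    have h1 : b (z *ᵥ u) v + b u (z *ᵥ v) = b (z *ᵥ (P *ᵥ u)) (Q *ᵥ v) +
        b (P *ᵥ u) (z *ᵥ (Q *ᵥ v)) := by
      rw [mulVec_mulVec, mulVec_mulVec, ← hzP, ← hzQ, ← mulVec_mulVec, ← mulVec_mulVec, bP, bP,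
        bQ, bQ]
    rw [h1, hPv, hf2]
    simp only [Fin.sum_univ_two, mulVec_add, mulVec_smul, badd1, badd2, bsmul1, bsmul2]
    rw [hm] at m00 m01 m10 m11
    linear_combination (φ 0 u * ψ 0 v) * m00 + (φ 0 u * ψ 1 v) * m01 +
      (φ 1 u * ψ 0 v) * m10 + (φ 1 u * ψ 1 v) * m11
  -- the form
  let β : (B → ℂ) →ₗ[ℂ] (B → ℂ) →ₗ[ℂ] ℂ := LinearMap.mk₂ ℂ (fun u v => b u v + b v u)
    (fun u u' v => by rw [badd1, badd2]; ring) (fun r u v => by
      rw [bsmul1, bsmul2, smul_eq_mul]; ring)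
    (fun u v v' => by rw [badd1, badd2]; ring) (fun r u v => by
      rw [bsmul1, bsmul2, smul_eq_mul]; ring)
  have hβ : ∀ u v, β u v = b u v + b v u := fun _ _ => rfl
  have h1 := NB β (fun u v => by rw [hβ, hβ, add_comm]) (fun X hX u v _ _ => by
    obtain ⟨x, hx⟩ : ∃ x, x = P * X * Q := ⟨_, rfl⟩
    obtain ⟨y, hy⟩ : ∃ y, y = Q * X * P := ⟨_, rfl⟩
    obtain ⟨z, hz⟩ : ∃ z, z = P * X * P + Q * X * Q := ⟨_, rfl⟩
    have hxp : x ∈ pos G P Q := by
      rw [hx]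
      exact ⟨H.grP hX, by rw [← mul_assoc, ← mul_assoc, H.PP], by rw [mul_assoc _ Q Q, H.QQ]⟩
    have hyp : y ∈ pos G Q P := by
      rw [hy]
      exact ⟨H.grQ hX, by rw [← mul_assoc, ← mul_assoc, H.QQ], by rw [mul_assoc _ P P, H.PP]⟩
    have hzp : z ∈ G := by rw [hz]; exact H.gr0 hX
    have hzP : P * z = z * P := by rw [hz]; exact H.gr0_comm X
    have hXs : X = x + y + z := by rw [hx, hy, hz]; exact H.split hX
    have c1 : ∀ u v, b (y *ᵥ u) v = 0 := by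
      intro u v
      rw [← hyp.2.1, ← mulVec_mulVec, bQ0]
    have c2 : ∀ u v, b u (x *ᵥ v) = 0 := by
      intro u v
      rw [← hxp.2.1, ← mulVec_mulVec, bP0]
    rw [hβ, hβ, hXs]
    simp only [add_mulVec, badd1, badd2, c1, c2]
    linear_combination hW x hxp u v + hy0 y hyp u v + hz0 z hzp hzP u v + hz0 z hzp hzP v u)
    (g 0) (f 1) (by
      rw [add_mulVec, hPg, ← hPg, mulVec_mulVec, H.QP, zero_mulVec, add_zero]) (by
      rw [add_mulVec, hf1, ← hf1, mulVec_mulVec, H.PQ, zero_mulVec, zero_add])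
  rw [hβ, hb', hb', hφg, hf3, hφg, hφf, hφf] at h1
  simp at h1

end Pool.Agent.N183.JP
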