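import Mathlib
import Pool.Agent.N183.JP.Two

/-!
# Lie algebras of the format (3, 3) without elements of rank one
-/

set_option linter.unusedSectionVars false

namespace Pool.Agent.N183.JP

open Matrix Module
open Pool.Agent.Y4.G (trace_idemM trace_idemOp finrank_eq_one_of)
open Pool.Agent.Y4.G.Lie (pos mem_pos)
open Pool.Agent.R915 (exists_frame trace_frame NBil Skw GenInv bs)

variable {B : Type*} [Fintype B] [DecidableEq B]

variable {G : Submodule ℂ (Matrix B B ℂ)} {P Q : Matrix B B ℂ}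

namespace TrpP

variable {e e' p q : Matrix B B ℂ} (k : TrpP G P Q e e' p q)
include k

theorem rank_cases (H : LieP G P Q 3 3) (hNR : NR1 G P Q) :
    trace p = 2 ∨ (p = P ∧ q = Q) := by
  have h1 := trace_idemM k.pp
  have h2 := trace_idemM (k.idP H.PP)
  rw [trace_sub, H.trP, h1] at h2
  obtain ⟨m, hm⟩ : ∃ m, m = finrank ℂ (LinearMap.range (mulVecLin p)) := ⟨_, rfl⟩
  obtain ⟨n, hn⟩ : ∃ n, n = finrank ℂ (LinearMap.range (mulVecLin (P - p))) := ⟨_, rfl⟩
  rw [← hm, ← hn] at h2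
  rw [← hm] at h1
  have h3 : 3 = n + m := by
    have h4 : ((3 : ℕ) : ℂ) = ((n + m : ℕ) : ℂ) := by
      push_cast
      linear_combination h2
    exact_mod_cast h4
  have hm0 : m ≠ 0 := by
    rintro rfl
    have h4 := idem_zero k.pp (by rw [h1, Nat.cast_zero])
    exact k.ne (by rw [← k.pe, h4, zero_mul])
  have hm1 : m ≠ 1 := by
    rintro rfl
    obtain ⟨r, ρ, -, h4, -, -⟩ := exists_frame k.pp (n := 1) h1
    refine k.ne (hNR e k.mem (r 0) fun v => ⟨ρ 0 (e *ᵥ v), ?_⟩)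
    have h5 := h4 (e *ᵥ v)
    rw [mulVec_mulVec, k.pe, Fin.sum_univ_one] at h5
    exact h5
  by_cases hm2 : m = 2
  · left
    rw [h1, hm2, Nat.cast_two]
  · right
    have hm3 : m = 3 := by omega
    have hp : P - p = 0 := idem_zero (k.idP H.PP) (by
      rw [trace_sub, H.trP, h1, hm3, sub_self])
    have hq : Q - q = 0 := idem_zero (k.idQ H.QQ) (by
      rw [trace_sub, H.trQ, k.trpq, h1, hm3, sub_self])
    exact ⟨(sub_eq_zero.1 hp).symm, (sub_eq_zero.1 hq).symm⟩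

/-- The part of degree zero vanishes. -/
theorem zero0 (H : LieP G P Q 3 3) (hNR : NR1 G P Q) (h2 : trace p = 2) {x : Matrix B B ℂ}
    (hx : x ∈ pos G P Q) : (P - p) * x * (Q - q) = 0 := by
  obtain ⟨r, ρ, -, h4, -, -⟩ := exists_frame (k.idP H.PP) (n := 1) (by
    rw [trace_sub, H.trP, h2]
    norm_num)
  refine hNR _ (k.mem0 hx) (r 0) fun v => ⟨ρ 0 (x *ᵥ ((Q - q) *ᵥ v)), ?_⟩
  have h5 := h4 (x *ᵥ ((Q - q) *ᵥ v))
  rw [mulVec_mulVec, mulVec_mulVec, Fin.sum_univ_one] at h5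
  rw [← h5]

/-- The dimension. -/
theorem dim3 (H : LieP G P Q 3 3) (hNR : NR1 G P Q) (h2 : trace p = 2) :
    finrank ℂ (pos G P Q) = 3 := by
  obtain ⟨π2, hπ2⟩ : ∃ T : pos G P Q →ₗ[ℂ] pos G P Q, ∀ x : pos G P Q,
      ((T x : pos G P Q) : Matrix B B ℂ) = p * x * q :=
    ⟨{ toFun := fun x => ⟨p * x * q, k.mem2 x x.2⟩
       map_add' := fun x y => Subtype.ext (by
        change p * ((x : Matrix B B ℂ) + y) * q = p * x * q + p * y * q
        noncomm_ring)
       map_smul' := fun c x => Subtype.ext (by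
        change p * (c • (x : Matrix B B ℂ)) * q = c • (p * x * q)
        rw [Matrix.mul_smul, Matrix.smul_mul]) }, fun _ => rfl⟩
  have hid2 : ∀ x, π2 (π2 x) = π2 x := by
    intro x
    apply Subtype.ext
    rw [hπ2, hπ2]
    calc p * (p * x * q) * q = (p * p) * x * (q * q) := by noncomm_ring
    _ = _ := by rw [k.pp, k.qq]
  have htr2 : finrank ℂ (LinearMap.range π2) = 1 := by
    refine finrank_eq_one_of _ (e := (⟨e, k.mem⟩ : pos G P Q)) ⟨⟨e, k.mem⟩, Subtype.ext (by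
      rw [hπ2]
      change p * e * q = e
      rw [k.pe, k.eq])⟩ (fun h0 => k.ne (congrArg Subtype.val h0)) ?_
    rintro _ ⟨y, rfl⟩
    obtain ⟨c, hc⟩ := k.one _ (π2 y).2 (by
      have h3 := congrArg Subtype.val (hid2 y)
      rw [hπ2 (π2 y)] at h3
      exact h3)
    exact ⟨c, Subtype.ext hc⟩
  have hcas := H.cas p q (LinearMap.id + π2) k.Pp k.qQ fun x => by
    have h3 := k.zero0 H hNR h2 x.2
    have h4 : (P - p) * (x : Matrix B B ℂ) * (Q - q) =
        (P * x) * Q - (P * x) * q - p * (x * Q) + p * x * q := by noncomm_ring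
    rw [h4, x.2.2.1, x.2.2.2] at h3
    change (x : Matrix B B ℂ) + ((π2 x : pos G P Q) : Matrix B B ℂ) = _
    rw [hπ2]
    have h5 : (x : Matrix B B ℂ) + p * x * q - (p * x + x * q) =
        x - x * q - p * x + p * x * q := by abel
    rw [← sub_eq_zero, h5, h3]
  rw [map_add, trace_idemOp hid2, htr2, LinearMap.trace_id, h2, k.trpq, h2] at hcas
  have h3 : ((9 * (finrank ℂ (pos G P Q) + 1) : ℕ) : ℂ) =
      ((12 * finrank ℂ (pos G P Q) : ℕ) : ℂ) := by
    push_cast at hcas ⊢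
    linear_combination hcas
  have h4 : 9 * (finrank ℂ (pos G P Q) + 1) = 12 * finrank ℂ (pos G P Q) := by exact_mod_cast h3
  omega

end TrpP

theorem TrpP.skw {e e' p q : Matrix B B ℂ} (k : TrpP G P Q e e' p q) (H : LieP G P Q 3 3)
    (hNR : NR1 G P Q) (h2 : trace p = 2) : ∃ f g ψ φ c x1, Skw G P Q f g ψ φ c e x1 := by
  have hd := k.dim3 H hNR h2
  obtain ⟨f, ψ, hf1, hf2, hf3, hf4⟩ := exists_frame k.qq (n := 2) (by
    rw [k.trpq, h2, Nat.cast_two])
  obtain ⟨f', ψ', hf1', hf2', hf3', hf4'⟩ := exists_frame (k.idQ H.QQ) (n := 1) (by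
    rw [trace_sub, H.trQ, k.trpq, h2]
    norm_num)
  obtain ⟨g', φ', hg1', hg2', hg3', hg4'⟩ := exists_frame (k.idP H.PP) (n := 1) (by
    rw [trace_sub, H.trP, h2]
    norm_num)
  -- the functionals
  obtain ⟨Ψ, hΨ⟩ : ∃ Ψ : Fin 3 → (B → ℂ) →ₗ[ℂ] ℂ, Ψ = ![ψ 0, ψ 1, ψ' 0] := ⟨_, rfl⟩
  obtain ⟨F, hF⟩ : ∃ F : Fin 3 → B → ℂ, F = ![f 0, f 1, f' 0] := ⟨_, rfl⟩
  obtain ⟨Φ, hΦ⟩ : ∃ Φ : Fin 3 → (B → ℂ) →ₗ[ℂ] ℂ,
    Φ = ![(ψ 0).comp (mulVecLin e'), (ψ 1).comp (mulVecLin e'), φ' 0] := ⟨_, rfl⟩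
  obtain ⟨Γ, hΓ⟩ : ∃ Γ : Fin 3 → B → ℂ, Γ = ![e *ᵥ f 0, e *ᵥ f 1, g' 0] := ⟨_, rfl⟩
  have hΦ0 : ∀ v, Φ 0 v = ψ 0 (e' *ᵥ v) := fun v => by rw [hΦ]; rfl
  have hΦ1 : ∀ v, Φ 1 v = ψ 1 (e' *ᵥ v) := fun v => by rw [hΦ]; rfl
  have hΦ2 : ∀ v, Φ 2 v = φ' 0 v := fun v => by rw [hΦ]; rfl
  have hΨ0 : ∀ v, Ψ 0 v = ψ 0 v := fun v => by rw [hΨ]; rfl
  have hΨ1 : ∀ v, Ψ 1 v = ψ 1 v := fun v => by rw [hΨ]; rfl
  have hΨ2 : ∀ v, Ψ 2 v = ψ' 0 v := fun v => by rw [hΨ]; rfl
  have hF0 : F 0 = f 0 := by rw [hF]; rfl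
  have hF1 : F 1 = f 1 := by rw [hF]; rfl
  have hF2 : F 2 = f' 0 := by rw [hF]; rfl
  have hΓ0 : Γ 0 = e *ᵥ f 0 := by rw [hΓ]; rfl
  have hΓ1 : Γ 1 = e *ᵥ f 1 := by rw [hΓ]; rfl
  have hΓ2 : Γ 2 = g' 0 := by rw [hΓ]; rfl
  -- elementary relations
  have hqQ' : q * (Q - q) = 0 := by rw [mul_sub, k.qQ, k.qq, sub_self]
  have hQ1q' : (Q - q) * q = 0 := by rw [sub_mul, k.Qu, k.qq, sub_self]
  have hpP' : p * (P - p) = 0 := by rw [mul_sub, k.pP, k.pp, sub_self]
  have hPp' : (P - p) * p = 0 := by rw [sub_mul, k.Pp, k.pp, sub_self]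
  have hepP : e' * (P - p) = 0 := by
    rw [← k.fp, mul_assoc, hpP', mul_zero]
  have hPpe : (P - p) * e = 0 := by
    rw [← k.pe, ← mul_assoc, hPp', zero_mul]
  have hQ1qe : (Q - q) * e' = 0 := by
    rw [← k.qf, ← mul_assoc, hQ1q', zero_mul]
  have hehe : ∀ v, e' *ᵥ (e *ᵥ v) = q *ᵥ v := by
    intro v
    rw [mulVec_mulVec, k.fe]
  have hψf' : ∀ i, ψ i (f' 0) = 0 := by
    intro i
    rw [← hf4, ← hf1' 0, mulVec_mulVec, hqQ', zero_mulVec, map_zero]
  have hψ'f : ∀ j, ψ' 0 (f j) = 0 := by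
    intro j
    rw [← hf4', ← hf1 j, mulVec_mulVec, hQ1q', zero_mulVec, map_zero]
  have hφ'e : ∀ v, φ' 0 (e *ᵥ v) = 0 := by
    intro v
    rw [← hg4', mulVec_mulVec, hPpe, zero_mulVec, map_zero]
  have hψ'e : ∀ v, ψ' 0 (e' *ᵥ v) = 0 := by
    intro v
    rw [← hf4', mulVec_mulVec, hQ1qe, zero_mulVec, map_zero]
  have hΦe0 : ∀ v, Φ 0 (e *ᵥ v) = ψ 0 v := by
    intro v
    rw [hΦ0, hehe, hf4]
  have hΦe1 : ∀ v, Φ 1 (e *ᵥ v) = ψ 1 v := by
    intro v
    rw [hΦ1, hehe, hf4]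
  have hΦg0 : Φ 0 (g' 0) = 0 := by
    rw [hΦ0, ← hg1' 0, mulVec_mulVec, hepP, zero_mulVec, map_zero]
  have hΦg1 : Φ 1 (g' 0) = 0 := by
    rw [hΦ1, ← hg1' 0, mulVec_mulVec, hepP, zero_mulVec, map_zero]
  have hQv : ∀ v, Q *ᵥ v = ∑ i, Ψ i v • F i := by
    intro v
    have h3 : Q *ᵥ v = q *ᵥ v + (Q - q) *ᵥ v := by rw [sub_mulVec]; abel
    rw [h3, hf2, hf2', Fin.sum_univ_two, Fin.sum_univ_one, Fin.sum_univ_three, hΨ0, hΨ1, hΨ2, hF0,
      hF1, hF2]
  have hpv : ∀ v, p *ᵥ v = Φ 0 v • (e *ᵥ f 0) + Φ 1 v • (e *ᵥ f 1) := by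
    intro v
    have h3 : p *ᵥ v = e *ᵥ (q *ᵥ (e' *ᵥ v)) := by
      rw [mulVec_mulVec, mulVec_mulVec, k.eq, k.ef]
    rw [h3, hf2, Fin.sum_univ_two, mulVec_add, mulVec_smul, mulVec_smul, hΦ0, hΦ1]
  have hPv : ∀ v, P *ᵥ v = ∑ i, Φ i v • Γ i := by
    intro v
    have h3 : P *ᵥ v = p *ᵥ v + (P - p) *ᵥ v := by rw [sub_mulVec]; abel
    rw [h3, hpv, hg2', Fin.sum_univ_one, Fin.sum_univ_three, hΦ2, hΓ0, hΓ1, hΓ2]
  have hΨF : ∀ i j, Ψ i (F j) = if i = j then 1 else 0 := by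
    intro i j
    fin_cases i <;> fin_cases j
    · change Ψ 0 (F 0) = _
      rw [hΨ0, hF0, hf3]
      simp
    · change Ψ 0 (F 1) = _
      rw [hΨ0, hF1, hf3]
      simp
    · change Ψ 0 (F 2) = _
      rw [hΨ0, hF2, hψf']
      simp
    · change Ψ 1 (F 0) = _
      rw [hΨ1, hF0, hf3]
      simp
    · change Ψ 1 (F 1) = _
      rw [hΨ1, hF1, hf3]
      simp
    · change Ψ 1 (F 2) = _
      rw [hΨ1, hF2, hψf']
      simp
    · change Ψ 2 (F 0) = _
      rw [hΨ2, hF0, hψ'f]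
      simp
    · change Ψ 2 (F 1) = _
      rw [hΨ2, hF1, hψ'f]
      simp
    · change Ψ 2 (F 2) = _
      rw [hΨ2, hF2, hf3']
      simp
  have hΦΓ : ∀ i j, Φ i (Γ j) = if i = j then 1 else 0 := by
    intro i j
    fin_cases i <;> fin_cases j
    · change Φ 0 (Γ 0) = _
      rw [hΓ0, hΦe0, hf3]
      simp
    · change Φ 0 (Γ 1) = _
      rw [hΓ1, hΦe0, hf3]
      simp
    · change Φ 0 (Γ 2) = _
      rw [hΓ2, hΦg0]
      simp
    · change Φ 1 (Γ 0) = _
      rw [hΓ0, hΦe1, hf3]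
      simp
    · change Φ 1 (Γ 1) = _
      rw [hΓ1, hΦe1, hf3]
      simp
    · change Φ 1 (Γ 2) = _
      rw [hΓ2, hΦg1]
      simp
    · change Φ 2 (Γ 0) = _
      rw [hΓ0, hΦ2, hφ'e]
      simp
    · change Φ 2 (Γ 1) = _
      rw [hΓ1, hΦ2, hφ'e]
      simp
    · change Φ 2 (Γ 2) = _
      rw [hΓ2, hΦ2, hg3']
      simp
  have hΨQ : ∀ i v, Ψ i (Q *ᵥ v) = Ψ i v := by
    intro i v
    rw [hQv, map_sum]
    simp only [map_smul, smul_eq_mul, hΨF]
    simp
  have hΦP : ∀ i v, Φ i (P *ᵥ v) = Φ i v := by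
    intro i v
    fin_cases i
    · change Φ 0 (P *ᵥ v) = Φ 0 v
      rw [hΦ0, hΦ0, mulVec_mulVec]
      rw [k.fmem.2.2]
    · change Φ 1 (P *ᵥ v) = Φ 1 v
      rw [hΦ1, hΦ1, mulVec_mulVec]
      rw [k.fmem.2.2]
    · change Φ 2 (P *ᵥ v) = Φ 2 v
      rw [hΦ2, hΦ2, ← hg4', mulVec_mulVec]
      have h3 : (P - p) * P = P - p := by rw [sub_mul, H.PP, k.pP]
      rw [h3, hg4']
  -- the matrix of an element
  have hxv : ∀ x ∈ pos G P Q, ∀ i v, Φ i (x *ᵥ v) = ∑ j, Ψ j v * Φ i (x *ᵥ F j) := by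
    intro x hx i v
    have h3 : x *ᵥ v = x *ᵥ (Q *ᵥ v) := by rw [mulVec_mulVec, hx.2.2]
    rw [h3, hQv, mulVec_sum, map_sum]
    refine Finset.sum_congr rfl fun j _ => ?_
    rw [mulVec_smul, map_smul, smul_eq_mul]
  have hxP : ∀ x ∈ pos G P Q, ∀ v, x *ᵥ v = ∑ i, Φ i (x *ᵥ v) • Γ i := by
    intro x hx v
    rw [← hPv, mulVec_mulVec, hx.2.1]
  have hstr : ∀ x ∈ pos G P Q, ∃ a, Φ 0 (x *ᵥ F 0) = a ∧ Φ 1 (x *ᵥ F 1) = a ∧
      Φ 0 (x *ᵥ F 1) = 0 ∧ Φ 1 (x *ᵥ F 0) = 0 ∧ Φ 2 (x *ᵥ F 2) = 0 := by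
    intro x hx
    obtain ⟨a, ha⟩ := k.one _ (k.mem2 x hx) (by
      have h3 : p * (p * x * q) * q = (p * p) * x * (q * q) := by noncomm_ring
      rw [h3, k.pp, k.qq])
    have hpx : ∀ j, j = 0 ∨ j = 1 → p *ᵥ (x *ᵥ F j) = a • (e *ᵥ F j) := by
      intro j hj
      have h3 : q *ᵥ F j = F j := by
        rcases hj with rfl | rfl
        · rw [hF0, hf1]
        · rw [hF1, hf1]
      rw [← h3, mulVec_mulVec, mulVec_mulVec, mulVec_mulVec, ha, k.eq, smul_mulVec]
    have hΦp0 : ∀ v, Φ 0 (p *ᵥ v) = Φ 0 v := by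
      intro v
      rw [hΦ0, hΦ0, mulVec_mulVec, k.fp]
    have hΦp1 : ∀ v, Φ 1 (p *ᵥ v) = Φ 1 v := by
      intro v
      rw [hΦ1, hΦ1, mulVec_mulVec, k.fp]
    refine ⟨a, ?_, ?_, ?_, ?_, ?_⟩
    · rw [← hΦp0, hpx 0 (Or.inl rfl), map_smul, smul_eq_mul, hΦe0, hF0, hf3]
      simp
    · rw [← hΦp1, hpx 1 (Or.inr rfl), map_smul, smul_eq_mul, hΦe1, hF1, hf3]
      simp
    · rw [← hΦp0, hpx 1 (Or.inr rfl), map_smul, smul_eq_mul, hΦe0, hF1, hf3]
      simp
    · rw [← hΦp1, hpx 0 (Or.inl rfl), map_smul, smul_eq_mul, hΦe1, hF0, hf3]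
      simp
    · have h3 := k.zero0 H hNR h2 hx
      have h4 : (Q - q) *ᵥ F 2 = F 2 := by rw [hF2, hf1']
      rw [hΦ2, ← hg4', ← h4, mulVec_mulVec, mulVec_mulVec, h3, zero_mulVec, map_zero]
  -- vanishing
  have hvan : ∀ x ∈ pos G P Q, Φ 0 (x *ᵥ F 0) = 0 → Φ 0 (x *ᵥ F 2) = 0 → Φ 1 (x *ᵥ F 2) = 0 →
      x = 0 := by
    intro x hx h3 h4 h5
    obtain ⟨a, e1, e2, e3, e4, e5⟩ := hstr x hx
    refine hNR x hx (Γ 2) fun v => ⟨Φ 2 (x *ᵥ v), ?_⟩
    have h6 : Φ 0 (x *ᵥ v) = 0 := by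
      rw [hxv x hx, Fin.sum_univ_three, h3, h4, e3]
      ring
    have h7 : Φ 1 (x *ᵥ v) = 0 := by
      rw [hxv x hx, Fin.sum_univ_three, h5, e4, e2, ← e1, h3]
      ring
    nth_rewrite 1 [hxP x hx v]
    rw [Fin.sum_univ_three, h6, h7, zero_smul, zero_smul, zero_add, zero_add]
  -- the linear map
  let T : pos G P Q →ₗ[ℂ] (Fin 3 → ℂ) :=
    { toFun := fun x => ![Φ 0 ((x : Matrix B B ℂ) *ᵥ F 0), Φ 0 ((x : Matrix B B ℂ) *ᵥ F 2),
        Φ 1 ((x : Matrix B B ℂ) *ᵥ F 2)]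
      map_add' := fun x y => by
        funext i
        fin_cases i <;> simp [add_mulVec]
      map_smul' := fun c x => by
        funext i
        fin_cases i <;> simp [smul_mulVec] }
  have hTinj : Function.Injective T := by
    rw [injective_iff_map_eq_zero]
    intro x hx
    have h3 := congrFun hx 0
    have h4 := congrFun hx 1
    have h5 := congrFun hx 2
    exact Subtype.ext (hvan x x.2 h3 h4 h5)
  have hTsurj : Function.Surjective T := by
    rw [← LinearMap.range_eq_top]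
    apply Submodule.eq_top_of_finrank_eq
    rw [LinearMap.finrank_range_of_inj hTinj, hd, finrank_fin_fun]
  obtain ⟨⟨x1, hx1⟩, hTx1⟩ := hTsurj ![0, 1, 0]
  obtain ⟨⟨x2, hx2⟩, hTx2⟩ := hTsurj ![0, 0, 1]
  have a0 : Φ 0 (x1 *ᵥ F 0) = 0 := congrFun hTx1 0
  have a1 : Φ 0 (x1 *ᵥ F 2) = 1 := congrFun hTx1 1
  have a2 : Φ 1 (x1 *ᵥ F 2) = 0 := congrFun hTx1 2
  have b0 : Φ 0 (x2 *ᵥ F 0) = 0 := congrFun hTx2 0
  have b1 : Φ 0 (x2 *ᵥ F 2) = 0 := congrFun hTx2 1
  have b2 : Φ 1 (x2 *ᵥ F 2) = 1 := congrFun hTx2 2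
  -- the quadratic relation
  have hquad : ∀ x ∈ pos G P Q, Φ 0 (x *ᵥ F 0) = 0 →
      Φ 2 (x *ᵥ F 0) * Φ 0 (x *ᵥ F 2) + Φ 2 (x *ᵥ F 1) * Φ 1 (x *ᵥ F 2) = 0 := by
    intro x hx h3
    obtain ⟨a, e1, e2, e3, e4, e5⟩ := hstr x hx
    rw [← e1, h3] at e2
    have hy : x * e' * x ∈ pos G P Q := H.quad hx k.fmem
    have hΨe2 : ∀ v, Ψ 2 (e' *ᵥ v) = 0 := fun v => by rw [hΨ2, hψ'e]
    have hyv : ∀ i v, Φ i ((x * e' * x) *ᵥ v) = ∑ j, Ψ j (e' *ᵥ (x *ᵥ v)) * Φ i (x *ᵥ F j) := by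
      intro i v
      rw [← mulVec_mulVec, ← mulVec_mulVec, hxv x hx]
    have h4 : x * e' * x = 0 := by
      refine hNR _ hy (Γ 2) fun v => ⟨Φ 2 ((x * e' * x) *ᵥ v), ?_⟩
      have h6 : Φ 0 ((x * e' * x) *ᵥ v) = 0 := by
        rw [hyv, Fin.sum_univ_three, h3, e3, hΨe2]
        ring
      have h7 : Φ 1 ((x * e' * x) *ᵥ v) = 0 := by
        rw [hyv, Fin.sum_univ_three, e2, e4, hΨe2]
        ring
      nth_rewrite 1 [hxP _ hy v]
      rw [Fin.sum_univ_three, h6, h7, zero_smul, zero_smul, zero_add, zero_add]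
    have h5 := hyv 2 (F 2)
    rw [h4, zero_mulVec, map_zero, Fin.sum_univ_three, hΨe2] at h5
    have h6 : Ψ 0 (e' *ᵥ (x *ᵥ F 2)) = Φ 0 (x *ᵥ F 2) := by
      rw [hΦ0, hΨ0]
    have h7 : Ψ 1 (e' *ᵥ (x *ᵥ F 2)) = Φ 1 (x *ᵥ F 2) := by
      rw [hΦ1, hΨ1]
    rw [h6, h7] at h5
    linear_combination -h5
  have q1 := hquad x1 hx1 a0
  rw [a1, a2] at q1
  have q2 := hquad x2 hx2 b0
  rw [b1, b2] at q2
  have q3 := hquad (x1 + x2) (Submodule.add_mem _ hx1 hx2) (by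
    rw [add_mulVec, map_add, a0, b0, add_zero])
  rw [add_mulVec, add_mulVec, add_mulVec, map_add, map_add, map_add, map_add, a1, a2, b1, b2] at q3
  have c1 : Φ 2 (x1 *ᵥ F 0) = 0 := by linear_combination q1
  have c2 : Φ 2 (x2 *ᵥ F 1) = 0 := by linear_combination q2
  have c3 : Φ 2 (x2 *ᵥ F 0) = -Φ 2 (x1 *ᵥ F 1) := by linear_combination q3 - c1 - c2
  obtain ⟨c, hc⟩ : ∃ c, c = Φ 2 (x1 *ᵥ F 1) := ⟨_, rfl⟩
  rw [← hc] at c3
  obtain ⟨a', e1, e2, e3, e4, e5⟩ := hstr x1 hx1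
  rw [← e1, a0] at e2
  have hx10 : ∀ v, Φ 0 (x1 *ᵥ v) = Ψ 2 v := by
    intro v
    rw [hxv x1 hx1, Fin.sum_univ_three, a0, e3, a1]
    ring
  have hx11 : ∀ v, Φ 1 (x1 *ᵥ v) = 0 := by
    intro v
    rw [hxv x1 hx1, Fin.sum_univ_three, e4, e2, a2]
    ring
  have hx12 : ∀ v, Φ 2 (x1 *ᵥ v) = c * Ψ 1 v := by
    intro v
    rw [hxv x1 hx1, Fin.sum_univ_three, c1, ← hc, e5]
    ring
  refine ⟨F, Γ, Ψ, Φ, c, x1,
    { c0 := ?_
      Qv := hQv
      Pv := hPv
      ψf := hΨF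
      φg := hΦΓ
      ψQ := hΨQ
      φP := hΦP
      str := ?_
      em := k.mem
      e0 := fun v => by rw [hΦe0, hΨ0]
      e1 := fun v => by rw [hΦe1, hΨ1]
      e2 := fun v => by rw [hΦ2, hφ'e]
      xm := hx1
      x0 := hx10
      x1' := hx11
      x2 := hx12 }⟩
  · rintro rfl
    have h3 : x1 = 0 := by
      refine hNR x1 hx1 (Γ 0) fun v => ⟨Ψ 2 v, ?_⟩
      rw [hxP x1 hx1 v, Fin.sum_univ_three, hx10, hx11, hx12, zero_mul, zero_smul, zero_smul,
        add_zero, add_zero]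
    rw [h3, zero_mulVec, map_zero] at a1
    exact zero_ne_one a1
  · intro x hx
    obtain ⟨a, e1, e2, e3, e4, e5⟩ := hstr x hx
    have h3 : x = a • e + Φ 0 (x *ᵥ F 2) • x1 + Φ 1 (x *ᵥ F 2) • x2 := by
      rw [← sub_eq_zero]
      have hΦe2 : Φ 0 (e *ᵥ F 2) = 0 := by rw [hΦe0, hF2, hψf']
      have hΦe3 : Φ 1 (e *ᵥ F 2) = 0 := by rw [hΦe1, hF2, hψf']
      have hΦe4 : Φ 0 (e *ᵥ F 0) = 1 := by
        rw [hΦe0, hF0, hf3]
        simp
      refine hvan _ (Submodule.sub_mem _ hx (Submodule.add_mem _ (Submodule.add_mem _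
        (Submodule.smul_mem _ _ k.mem) (Submodule.smul_mem _ _ hx1))
        (Submodule.smul_mem _ _ hx2))) ?_ ?_ ?_
      · simp only [sub_mulVec, add_mulVec, smul_mulVec, map_sub, map_add, map_smul, smul_eq_mul]
        rw [e1, a0, b0, hΦe4]
        ring
      · simp only [sub_mulVec, add_mulVec, smul_mulVec, map_sub, map_add, map_smul, smul_eq_mul]
        rw [a1, b1, hΦe2]
        ring
      · simp only [sub_mulVec, add_mulVec, smul_mulVec, map_sub, map_add, map_smul, smul_eq_mul]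
        rw [a2, b2, hΦe3]
        ring
    have d0 : Φ 2 (x *ᵥ F 0) = -(c * Φ 1 (x *ᵥ F 2)) := by
      nth_rewrite 1 [h3]
      simp only [add_mulVec, smul_mulVec, map_add, map_smul, smul_eq_mul]
      rw [hΦ2 (e *ᵥ _), hφ'e, c1, c3]
      ring
    have d1 : Φ 2 (x *ᵥ F 1) = c * Φ 0 (x *ᵥ F 2) := by
      nth_rewrite 1 [h3]
      simp only [add_mulVec, smul_mulVec, map_add, map_smul, smul_eq_mul]
      rw [hΦ2 (e *ᵥ _), hφ'e, c2, ← hc]
      ring
    refine ⟨a, Φ 0 (x *ᵥ F 2), Φ 1 (x *ᵥ F 2), fun v => ?_, fun v => ?_, fun v => ?_⟩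
    · rw [hxv x hx, Fin.sum_univ_three, e1, e3]
      ring
    · rw [hxv x hx, Fin.sum_univ_three, e2, e4]
      ring
    · rw [hxv x hx, Fin.sum_univ_three, e5, d0, d1]
      ring

theorem skw_false {f g : Fin 3 → B → ℂ} {ψ φ : Fin 3 → (B → ℂ) →ₗ[ℂ] ℂ} {c : ℂ}
    {e x1 : Matrix B B ℂ} (S : Skw G P Q f g ψ φ c e x1) (H : LieP G P Q 3 3)
    (T0 : ∀ X ∈ G, trace X = 0) (NB : NBil G P Q) : False := by
  have hc := S.c0
  -- vectors
  have hPg : ∀ i, P *ᵥ g i = g i := by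
    intro i
    rw [S.Pv]
    simp [S.φg]
  have hQf : ∀ i, Q *ᵥ f i = f i := by
    intro i
    rw [S.Qv]
    simp [S.ψf]
  have hφQ : ∀ i v, φ i (Q *ᵥ v) = 0 := by
    intro i v
    rw [← S.φP, mulVec_mulVec, H.PQ, zero_mulVec, map_zero]
  have hψP : ∀ i v, ψ i (P *ᵥ v) = 0 := by
    intro i v
    rw [← S.ψQ, mulVec_mulVec, H.QP, zero_mulVec, map_zero]
  have hφf : ∀ i j, φ i (f j) = 0 := by
    intro i j
    rw [← hQf, hφQ]
  have hψg : ∀ i j, ψ i (g j) = 0 := by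
    intro i j
    rw [← hPg, hψP]
  have hPx : ∀ x ∈ pos G P Q, ∀ v, x *ᵥ v = ∑ i, φ i (x *ᵥ v) • g i := by
    intro x hx v
    rw [← S.Pv, mulVec_mulVec, hx.2.1]
  have he0 : e *ᵥ f 0 = g 0 := by
    rw [hPx e S.em, Fin.sum_univ_three, S.e0, S.e1, S.e2, S.ψf, S.ψf]
    simp
  have he1 : e *ᵥ f 1 = g 1 := by
    rw [hPx e S.em, Fin.sum_univ_three, S.e0, S.e1, S.e2, S.ψf, S.ψf]
    simp
  have he2 : e *ᵥ f 2 = 0 := by
    rw [hPx e S.em, Fin.sum_univ_three, S.e0, S.e1, S.e2, S.ψf, S.ψf]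
    simp
  have hx0 : x1 *ᵥ f 0 = 0 := by
    rw [hPx x1 S.xm, Fin.sum_univ_three, S.x0, S.x1', S.x2, S.ψf, S.ψf]
    simp
  have hx1 : x1 *ᵥ f 1 = c • g 2 := by
    rw [hPx x1 S.xm, Fin.sum_univ_three, S.x0, S.x1', S.x2, S.ψf, S.ψf]
    simp
  have hx2 : x1 *ᵥ f 2 = g 0 := by
    rw [hPx x1 S.xm, Fin.sum_univ_three, S.x0, S.x1', S.x2, S.ψf, S.ψf]
    simp
  -- the half of the form
  obtain ⟨b, hb⟩ : ∃ b : (B → ℂ) → (B → ℂ) → ℂ, b = bs ψ φ c := ⟨_, rfl⟩
  have hb' : ∀ u v, b u v = φ 0 u * ψ 1 v - φ 1 u * ψ 0 v - c⁻¹ * (φ 2 u * ψ 2 v) := by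
    intro u v
    rw [hb]
    rfl
  have badd1 : ∀ u u' v, b (u + u') v = b u v + b u' v := by
    intro u u' v
    simp only [hb', map_add]
    ring
  have badd2 : ∀ u v v', b u (v + v') = b u v + b u v' := by
    intro u v v'
    simp only [hb', map_add]
    ring
  have bsmul1 : ∀ (r : ℂ) u v, b (r • u) v = r * b u v := by
    intro r u v
    simp only [hb', map_smul, smul_eq_mul]
    ring
  have bsmul2 : ∀ (r : ℂ) u v, b u (r • v) = r * b u v := by
    intro r u v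
    simp only [hb', map_smul, smul_eq_mul]
    ring
  have bsub1 : ∀ u u' v, b (u - u') v = b u v - b u' v := by
    intro u u' v
    simp only [hb', map_sub]
    ring
  have bsub2 : ∀ u v v', b u (v - v') = b u v - b u v' := by
    intro u v v'
    simp only [hb', map_sub]
    ring
  have bP : ∀ u v, b (P *ᵥ u) v = b u v := by
    intro u v
    simp only [hb', S.φP]
  have bQ : ∀ u v, b u (Q *ᵥ v) = b u v := by
    intro u v
    simp only [hb', S.ψQ]
  have bQ0 : ∀ u v, b (Q *ᵥ u) v = 0 := by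
    intro u v
    simp only [hb', hφQ]
    ring
  have bP0 : ∀ u v, b u (P *ᵥ v) = 0 := by
    intro u v
    simp only [hb', hψP]
    ring
  have hW : ∀ x ∈ pos G P Q, ∀ u v, b (x *ᵥ u) v + b (x *ᵥ v) u = 0 := by
    intro x hx u v
    obtain ⟨a, β1, β2, s1, s2, s3⟩ := S.str x hx
    simp only [hb', s1, s2, s3]
    have h1 : c⁻¹ * c = 1 := inv_mul_cancel₀ hc
    linear_combination (-(β1 * ψ 1 u - β2 * ψ 0 u) * ψ 2 v - (β1 * ψ 1 v - β2 * ψ 0 v) * ψ 2 u) * h1
  -- elements of degree zero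
  have hz0 : ∀ z ∈ G, P * z = z * P → ∀ u v, b (z *ᵥ u) v + b u (z *ᵥ v) = 0 := by
    intro z hz hzP
    have hzQ := H.comm_Q hz hzP
    have key : ∀ x ∈ pos G P Q, ∀ u v, (b (z *ᵥ (x *ᵥ u)) v + b (x *ᵥ u) (z *ᵥ v)) +
        (b (z *ᵥ (x *ᵥ v)) u + b (x *ᵥ v) (z *ᵥ u)) = 0 := by
      intro x hx u v
      have h1 := hW _ (H.br_pos hx hz hzP hzQ) u v
      have h2 := hW x hx (z *ᵥ u) v
      have h3 := hW x hx (z *ᵥ v) u
      rw [sub_mulVec, sub_mulVec, bsub1, bsub1, ← mulVec_mulVec, ← mulVec_mulVec,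
        ← mulVec_mulVec, ← mulVec_mulVec] at h1
      linear_combination h1 + h2 + h3
    obtain ⟨m, hm⟩ : ∃ m : Fin 3 → Fin 3 → ℂ, ∀ i j, m i j = b (z *ᵥ g i) (f j) +
      b (g i) (z *ᵥ f j) := ⟨fun i j => _, fun _ _ => rfl⟩
    have hz00 : b (z *ᵥ (0 : B → ℂ)) = b 0 := by rw [mulVec_zero]
    have b0 : ∀ v, b 0 v = 0 := by
      intro v
      simp only [hb', map_zero]
      ring
    have m00 : m 0 0 = 0 := by
      have h1 := key e S.em (f 0) (f 0)
      rw [he0, ← hm] at h1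
      linear_combination h1 / 2
    have m11 : m 1 1 = 0 := by
      have h1 := key e S.em (f 1) (f 1)
      rw [he1, ← hm] at h1
      linear_combination h1 / 2
    have m10 : m 1 0 = -m 0 1 := by
      have h1 := key e S.em (f 0) (f 1)
      rw [he0, he1, ← hm, ← hm] at h1
      linear_combination h1
    have m02 : m 0 2 = 0 := by
      have h1 := key e S.em (f 0) (f 2)
      rw [he0, he2, ← hm, hz00, b0, b0] at h1
      linear_combination h1
    have m12 : m 1 2 = 0 := by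
      have h1 := key e S.em (f 1) (f 2)
      rw [he1, he2, ← hm, hz00, b0, b0] at h1
      linear_combination h1
    have m21 : m 2 1 = 0 := by
      have h1 := key x1 S.xm (f 1) (f 1)
      rw [hx1, mulVec_smul, bsmul1, bsmul1, ← mul_add, ← hm] at h1
      have h2 : c * m 2 1 = 0 := by linear_combination h1 / 2
      exact (mul_eq_zero.1 h2).resolve_left hc
    have m20 : m 2 0 = 0 := by
      have h1 := key x1 S.xm (f 0) (f 1)
      rw [hx0, hx1, hz00, b0, b0, mulVec_smul, bsmul1, bsmul1, ← mul_add, ← hm] at h1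
      have h2 : c * m 2 0 = 0 := by linear_combination h1
      exact (mul_eq_zero.1 h2).resolve_left hc
    have m22 : c * m 2 2 = -m 0 1 := by
      have h1 := key x1 S.xm (f 1) (f 2)
      rw [hx1, hx2, mulVec_smul, bsmul1, bsmul1, ← mul_add, ← hm, ← hm] at h1
      linear_combination h1
    have n01 : m 0 1 = φ 0 (z *ᵥ g 0) + ψ 1 (z *ᵥ f 1) := by
      rw [hm, hb', hb']
      simp [S.ψf, S.φg]
    have n10 : m 1 0 = -(φ 1 (z *ᵥ g 1) + ψ 0 (z *ᵥ f 0)) := by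
      rw [hm, hb', hb']
      simp [S.ψf, S.φg]
      ring
    have n22 : c * m 2 2 = -(φ 2 (z *ᵥ g 2) + ψ 2 (z *ᵥ f 2)) := by
      rw [hm, hb', hb']
      simp [S.ψf, S.φg]
      field_simp
      ring
    have htr : trace z = 3 * m 0 1 := by
      have h1 : z = z * P + z * Q := by rw [← mul_add, H.ler z hz]
      rw [h1, trace_add, trace_frame S.Pv, trace_frame S.Qv, Fin.sum_univ_three,
        Fin.sum_univ_three]
      linear_combination -n01 + n10 + n22 - m10 - m22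
    rw [T0 z hz] at htr
    have m01 : m 0 1 = 0 := by linear_combination -htr / 3
    have hall : ∀ i j, m i j = 0 := by
      intro i j
      fin_cases i <;> fin_cases j
      · exact m00
      · exact m01
      · exact m02
      · change m 1 0 = 0
        rw [m10, m01, neg_zero]
      · exact m11
      · exact m12
      · exact m20
      · exact m21
      · change m 2 2 = 0
        rw [m01, neg_zero] at m22
        exact (mul_eq_zero.1 m22).resolve_left hc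
    intro u v
    have h1 : b (z *ᵥ u) v + b u (z *ᵥ v) = b (z *ᵥ (P *ᵥ u)) (Q *ᵥ v) +
        b (P *ᵥ u) (z *ᵥ (Q *ᵥ v)) := by
      rw [mulVec_mulVec, mulVec_mulVec, ← hzP, ← hzQ, ← mulVec_mulVec, ← mulVec_mulVec, bP, bP,
        bQ, bQ]
    rw [h1, S.Pv, S.Qv]
    simp only [Fin.sum_univ_three, mulVec_add, mulVec_smul, badd1, badd2, bsmul1, bsmul2]
    have e00 := hall 0 0
    have e01 := hall 0 1
    have e02 := hall 0 2
    have e10 := hall 1 0
    have e11 := hall 1 1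
    have e12 := hall 1 2
    have e20 := hall 2 0
    have e21 := hall 2 1
    have e22 := hall 2 2
    rw [hm] at e00 e01 e02 e10 e11 e12 e20 e21 e22
    linear_combination (φ 0 u * ψ 0 v) * e00 + (φ 0 u * ψ 1 v) * e01 + (φ 0 u * ψ 2 v) * e02 +
      (φ 1 u * ψ 0 v) * e10 + (φ 1 u * ψ 1 v) * e11 + (φ 1 u * ψ 2 v) * e12 +
      (φ 2 u * ψ 0 v) * e20 + (φ 2 u * ψ 1 v) * e21 + (φ 2 u * ψ 2 v) * e22
  -- elements of degree minus one
  have hy0 : ∀ y ∈ pos G Q P, ∀ u v, b v (y *ᵥ u) + b u (y *ᵥ v) = 0 := by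
    intro y hy u
    have h1 : ∀ x ∈ pos G P Q, ∀ w, b (x *ᵥ w) (y *ᵥ u) + b u (y *ᵥ (x *ᵥ w)) = 0 := by
      intro x hx w
      have hzP : P * (x * y - y * x) = (x * y - y * x) * P := by
        have e1 : P * (x * y - y * x) = (P * x) * y - P * (Q * y) * x := by
          rw [hy.2.1]
          noncomm_ring
        have e2 : (x * y - y * x) * P = x * (y * P) - y * ((x * Q) * P) := by
          rw [hx.2.2]
          noncomm_ring
        rw [e1, e2, hx.2.1, hy.2.2, ← mul_assoc P, H.PQ, mul_assoc x Q P, H.QP]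
        simp
      have h2 := hz0 _ (H.br _ hx.1 _ hy.1) hzP u w
      have h3 := hW x hx (y *ᵥ u) w
      have h4 : b (y *ᵥ (x *ᵥ u)) w = 0 := by
        rw [← hy.2.1, ← mulVec_mulVec, bQ0]
      have h5 : b u (x *ᵥ (y *ᵥ w)) = 0 := by
        rw [← hx.2.1, ← mulVec_mulVec, bP0]
      rw [sub_mulVec, sub_mulVec, bsub1, bsub2, ← mulVec_mulVec, ← mulVec_mulVec,
        ← mulVec_mulVec, ← mulVec_mulVec, h4, h5] at h2
      linear_combination h3 - h2
    have h2 : ∀ i, b (g i) (y *ᵥ u) + b u (y *ᵥ g i) = 0 := by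
      intro i
      fin_cases i
      · have h3 := h1 e S.em (f 0)
        rwa [he0] at h3
      · have h3 := h1 e S.em (f 1)
        rwa [he1] at h3
      · have h3 := h1 x1 S.xm (f 1)
        rw [hx1, mulVec_smul, bsmul1, bsmul2, ← mul_add] at h3
        exact (mul_eq_zero.1 h3).resolve_left hc
    intro v
    have h3 : y *ᵥ v = y *ᵥ (P *ᵥ v) := by rw [mulVec_mulVec, hy.2.2]
    rw [h3, ← bP v, S.Pv]
    simp only [Fin.sum_univ_three, mulVec_add, mulVec_smul, badd1, badd2, bsmul1, bsmul2]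
    linear_combination (φ 0 v) * h2 0 + (φ 1 v) * h2 1 + (φ 2 v) * h2 2
  -- the form
  let β : (B → ℂ) →ₗ[ℂ] (B → ℂ) →ₗ[ℂ] ℂ := LinearMap.mk₂ ℂ (fun u v => b u v + b v u)
    (fun u u' v => by rw [badd1, badd2]; ring) (fun r u v => by
      rw [bsmul1, bsmul2, smul_eq_mul]; ring)
    (fun u v v' => by rw [badd1, badd2]; ring) (fun r u v => by
      rw [bsmul1, bsmul2, smul_eq_mul]; ring)
  have hβ : ∀ u v, β u v = b u v + b v u := fun _ _ => rfl
  have h1 := NB β (fun u v => by rw [hβ, hβ, add_comm]) (fun X hX u v _ _ => by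
    obtain ⟨x, hx⟩ : ∃ x, x = P * X * Q := ⟨_, rfl⟩
    obtain ⟨y, hy⟩ : ∃ y, y = Q * X * P := ⟨_, rfl⟩
    obtain ⟨z, hz⟩ : ∃ z, z = P * X * P + Q * X * Q := ⟨_, rfl⟩
    have hxp : x ∈ pos G P Q := by
      rw [hx]
      exact ⟨H.grP hX, by rw [← mul_assoc, ← mul_assoc, H.PP], by rw [mul_assoc _ Q Q, H.QQ]⟩
    have hyp : y ∈ pos G Q P := by
      rw [hy]
      exact ⟨H.grQ hX, by rw [← mul_assoc, ← mul_assoc, H.QQ], by rw [mul_assoc _ P P, H.PP]⟩
    have hzp : z ∈ G := by rw [hz]; exact H.gr0 hX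
    have hzP : P * z = z * P := by rw [hz]; exact H.gr0_comm X
    have hXs : X = x + y + z := by rw [hx, hy, hz]; exact H.split hX
    have c1 : ∀ u v, b (y *ᵥ u) v = 0 := by
      intro u v
      rw [← hyp.2.1, ← mulVec_mulVec, bQ0]
    have c2 : ∀ u v, b u (x *ᵥ v) = 0 := by
      intro u v
      rw [← hxp.2.1, ← mulVec_mulVec, bP0]
    rw [hβ, hβ, hXs]
    simp only [add_mulVec, badd1, badd2, c1, c2]
    linear_combination hW x hxp u v + hy0 y hyp u v + hz0 z hzp hzP u v + hz0 z hzp hzP v u)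
    (g 0) (f 1) (by
      rw [add_mulVec, hPg, ← hPg, mulVec_mulVec, H.QP, zero_mulVec, add_zero]) (by
      rw [add_mulVec, hQf, ← hQf, mulVec_mulVec, H.PQ, zero_mulVec, zero_add])
  rw [hβ, hb', hb', S.φg, S.ψf, S.φg, S.φg, S.ψf, S.ψf, hφf, hφf, hφf] at h1
  simp at h1

theorem no_line (H : LieP G P Q 3 3) {e e' : Matrix B B ℂ} (k : TrpP G P Q e e' P Q)
    (T0 : ∀ X ∈ G, trace X = 0) (GI : GenInv G P Q) : False := by
  have hee : e * e' = P := k.ef
  have hee' : e' * e = Q := k.fe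
  have hem' : e' ∈ pos G Q P := k.fmem
  have hPe : P * e = e := k.mem.2.1
  have heQ : e * Q = e := k.mem.2.2
  have hQe' : Q * e' = e' := hem'.2.1
  have heP' : e' * P = e' := hem'.2.2
  have hQe : Q * e = 0 := by rw [← hPe, ← mul_assoc, H.QP, zero_mul]
  have heP : e * P = 0 := by rw [← heQ, mul_assoc, H.QP, mul_zero]
  have hPe' : P * e' = 0 := by rw [← hQe', ← mul_assoc, H.PQ, zero_mul]
  have heQ' : e' * Q = 0 := by rw [← heP', mul_assoc, H.PQ, mul_zero]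
  have hee0 : e * e = 0 := by
    nth_rewrite 1 [← heQ]
    rw [mul_assoc, hQe, mul_zero]
  have hee0' : e' * e' = 0 := by
    nth_rewrite 1 [← heP']
    rw [mul_assoc, hPe', mul_zero]
  have hpos : ∀ x ∈ pos G P Q, ∃ c : ℂ, x = c • e := by
    intro x hx
    exact k.one x hx (by rw [hx.2.1, hx.2.2])
  have hneg : ∀ y ∈ pos G Q P, ∃ c : ℂ, y = c • e' := by
    intro y hy
    exact k.one' y hy (by rw [hy.2.1, hy.2.2])
  -- the small Lie algebra
  let G' : Submodule ℂ (Matrix B B ℂ) :=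
    { carrier := {X | ∃ α β γ : ℂ, X = α • e + β • e' + γ • (P - Q)}
      zero_mem' := ⟨0, 0, 0, by simp⟩
      add_mem' := by
        rintro _ _ ⟨α, β, γ, rfl⟩ ⟨α', β', γ', rfl⟩
        exact ⟨α + α', β + β', γ + γ', by module⟩
      smul_mem' := by
        rintro c _ ⟨α, β, γ, rfl⟩
        exact ⟨c * α, c * β, c * γ, by module⟩ }
  have hG' : ∀ X, X ∈ G' ↔ ∃ α β γ : ℂ, X = α • e + β • e' + γ • (P - Q) := fun _ => Iff.rfl
  have hDe : (P - Q) * e = e := by rw [sub_mul, hPe, hQe, sub_zero]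
  have heD : e * (P - Q) = -e := by rw [mul_sub, heP, heQ, zero_sub]
  have hDe' : (P - Q) * e' = -e' := by rw [sub_mul, hPe', hQe', zero_sub]
  have heD' : e' * (P - Q) = e' := by rw [mul_sub, heP', heQ', sub_zero]
  have hbr : ∀ X ∈ G', ∀ Y ∈ G', X * Y - Y * X ∈ G' := by
    rintro _ ⟨α, β, γ, rfl⟩ _ ⟨α', β', γ', rfl⟩
    refine ⟨2 * (γ * α' - γ' * α), -2 * (γ * β' - γ' * β), α * β' - β * α', ?_⟩
    simp only [add_mul, mul_add, Matrix.smul_mul, Matrix.mul_smul, hee0, hee0', hee, hee', hDe,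
      heD, hDe', heD']
    module
  have hle : G ≤ G' := by
    refine GI G' hbr fun X hX hXX => ?_
    obtain ⟨x, hx⟩ : ∃ x, x = P * X * Q := ⟨_, rfl⟩
    obtain ⟨y, hy⟩ : ∃ y, y = Q * X * P := ⟨_, rfl⟩
    obtain ⟨z, hz⟩ : ∃ z, z = P * X * P + Q * X * Q := ⟨_, rfl⟩
    have hxp : x ∈ pos G P Q := by
      rw [hx]
      exact ⟨H.grP hX, by rw [← mul_assoc, ← mul_assoc, H.PP], by rw [mul_assoc _ Q Q, H.QQ]⟩
    have hyp : y ∈ pos G Q P := by
      rw [hy]
      exact ⟨H.grQ hX, by rw [← mul_assoc, ← mul_assoc, H.QQ], by rw [mul_assoc _ P P, H.PP]⟩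
    have hzp : z ∈ G := by rw [hz]; exact H.gr0 hX
    have hzP : P * z = z * P := by rw [hz]; exact H.gr0_comm X
    have hzQ := H.comm_Q hzp hzP
    have hzs : z = z * P + z * Q := by rw [← mul_add, H.ler z hzp]
    have hXs : X = x + y + z := by rw [hx, hy, hz]; exact H.split hX
    obtain ⟨α, hα⟩ := hpos x hxp
    obtain ⟨β, hβ⟩ := hneg y hyp
    obtain ⟨χ, hχ⟩ := hpos _ (H.br_pos k.mem hzp hzP hzQ)
    have hze : z * e = e * z + χ • e := by rw [← hχ]; abel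
    have hze' : e' * z = z * e' + χ • e' := by
      have h1 : e' * (z * e) * e' = e' * (e * z + χ • e) * e' := by rw [hze]
      have h2 : e' * (z * e) * e' = e' * z := by
        rw [mul_assoc, mul_assoc, hee, ← hzP, ← mul_assoc, heP']
      have h3 : e' * (e * z + χ • e) * e' = z * e' + χ • e' := by
        rw [mul_add, add_mul, ← mul_assoc, hee', Matrix.mul_smul, hee', Matrix.smul_mul, hQe',
          hzQ, mul_assoc z, hQe']
      rw [← h2, h1, h3]
    -- the components of the square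
    have hPX : P * X = x + P * z := by
      rw [hXs, mul_add, mul_add, hxp.2.1, ← hyp.2.1, ← mul_assoc, H.PQ, zero_mul, add_zero]
    have hQX : Q * X = y + Q * z := by
      rw [hXs, mul_add, mul_add, hyp.2.1, ← hxp.2.1, ← mul_assoc, H.QP, zero_mul, zero_add]
    have hXP : X * P = y + z * P := by
      rw [hXs, add_mul, add_mul, hyp.2.2, ← hxp.2.2, mul_assoc x, H.QP, mul_zero, zero_add]
    have hXQ : X * Q = x + z * Q := by
      rw [hXs, add_mul, add_mul, hxp.2.2, ← hyp.2.2, mul_assoc y, H.PQ, mul_zero, add_zero]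
    have hxx : x * x = 0 := by
      rw [hα, Matrix.smul_mul, Matrix.mul_smul, hee0, smul_zero, smul_zero]
    have hyy : y * y = 0 := by
      rw [hβ, Matrix.smul_mul, Matrix.mul_smul, hee0', smul_zero, smul_zero]
    have hPzzQ : P * z * (z * Q) = 0 := by
      rw [hzP, mul_assoc z P, ← mul_assoc P z, hzP, mul_assoc z P, H.PQ, mul_zero, mul_zero]
    have hQzzP : Q * z * (z * P) = 0 := by
      rw [hzQ, mul_assoc z Q, ← mul_assoc Q z, hzQ, mul_assoc z Q, H.QP, mul_zero, mul_zero]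
    have s1 : x * z + z * x = 0 := by
      have h1 : P * (X * X) * Q = 0 := by
        rw [hXX, mul_add, add_mul, H.PP, H.PQ, zero_mul, add_zero]
      have h2 : P * (X * X) * Q = (P * X) * (X * Q) := by noncomm_ring
      rw [h2, hPX, hXQ, add_mul, mul_add, mul_add, hxx, hPzzQ, zero_add, add_zero, ← hzQ,
        ← mul_assoc x, hxp.2.2, hzP, mul_assoc z, hxp.2.1] at h1
      exact h1
    have s2 : y * z + z * y = 0 := by
      have h1 : Q * (X * X) * P = 0 := by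
        rw [hXX, mul_add, add_mul, H.QP, H.QQ, H.QP, zero_mul, zero_add]
      have h2 : Q * (X * X) * P = (Q * X) * (X * P) := by noncomm_ring
      rw [h2, hQX, hXP, add_mul, mul_add, mul_add, hyy, hQzzP, zero_add, add_zero, ← hzP,
        ← mul_assoc y, hyp.2.2, hzQ, mul_assoc z, hyp.2.1] at h1
      exact h1
    -- the element of degree zero
    obtain ⟨γ, hγ⟩ : ∃ γ : ℂ, z = γ • (P - Q) := by
      refine ⟨χ / 2, ?_⟩
      have key : (2 : ℂ) • (z * P) = χ • P → (2 : ℂ) • (z * Q) = -(χ • Q) →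
          z = (χ / 2) • (P - Q) := by
        intro h1 h2
        have h3 : (2 : ℂ) • z = χ • (P - Q) := by
          nth_rewrite 1 [hzs]
          rw [smul_add, h1, h2, smul_sub]
          abel
        have h4 : z = (2 : ℂ)⁻¹ • ((2 : ℂ) • z) := by
          rw [smul_smul, inv_mul_cancel₀ two_ne_zero, one_smul]
        rw [h4, h3, smul_smul]
        congr 1
        ring
      by_cases hα0 : α = 0
      · by_cases hβ0 : β = 0
        · -- the square of the element of degree zero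
          have hXz : X = z := by rw [hXs, hα, hβ, hα0, hβ0]; simp
          have hzz : z * z = P + Q := by rw [← hXz, hXX]
          have hzzQ : z * z * Q = Q := by rw [hzz, add_mul, H.PQ, H.QQ, zero_add]
          have hzzP : z * z * P = P := by rw [hzz, add_mul, H.QP, H.PP, add_zero]
          have hN : ((2 : ℂ)⁻¹ • (Q - z * Q)) * ((2 : ℂ)⁻¹ • (Q - z * Q)) =
              (2 : ℂ)⁻¹ • (Q - z * Q) := by
            have h1 : (Q - z * Q) * (Q - z * Q) = (2 : ℂ) • (Q - z * Q) := by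
              have h2 : (Q - z * Q) * (Q - z * Q) = Q * Q - Q * z * Q - z * (Q * Q) +
                z * (Q * z) * Q := by noncomm_ring
              have h3 : Q * z * Q = z * Q := by rw [hzQ, mul_assoc, H.QQ]
              have h4 : z * (Q * z) * Q = Q := by
                rw [hzQ, ← mul_assoc, mul_assoc (z * z), H.QQ, hzzQ]
              rw [h2, h3, h4, H.QQ, two_smul]
              abel
            rw [Matrix.smul_mul, Matrix.mul_smul, h1, smul_smul, smul_smul]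
            norm_num
          have hn := trace_idemM hN
          obtain ⟨n, hn'⟩ : ∃ n, n = finrank ℂ (LinearMap.range (mulVecLin
            ((2 : ℂ)⁻¹ • (Q - z * Q)))) := ⟨_, rfl⟩
          rw [← hn', trace_smul, trace_sub, H.trQ, smul_eq_mul] at hn
          have hezP : z * P = e * z * e' + χ • P := by
            rw [← hee, ← mul_assoc, hze, add_mul, Matrix.smul_mul]
          have ht1 : trace (z * P) = trace (z * Q) + 3 * χ := by
            rw [hezP, trace_add, trace_smul, H.trP, mul_assoc, trace_mul_comm, mul_assoc, hee',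
              smul_eq_mul]
            push_cast
            ring
          have ht2 : trace (z * P) + trace (z * Q) = 0 := by
            rw [← trace_add, ← hzs]
            exact T0 z hzp
          have hsq : χ • ((2 : ℂ) • (e * z * e') + χ • P) = 0 := by
            have h1 : z * P * (z * P) = P := by
              rw [mul_assoc, ← mul_assoc P, hzP, mul_assoc z P, H.PP, ← mul_assoc, hzzP]
            have h2 : e * z * e' * (e * z * e') = P := by
              have h3 : e * z * e' * (e * z * e') = e * (z * ((e' * e) * z)) * e' := by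
                noncomm_ring
              rw [h3, hee', hzQ, ← mul_assoc z z Q, hzzQ, heQ, hee]
            have h3 : e * z * e' * P = e * z * e' := by rw [mul_assoc, heP']
            have h4 : P * (e * z * e') = e * z * e' := by
              rw [← mul_assoc, ← mul_assoc, hPe]
            rw [hezP, add_mul, mul_add, mul_add, h2, Matrix.mul_smul, h3, Matrix.smul_mul, h4,
              Matrix.smul_mul, Matrix.mul_smul, H.PP] at h1
            have h5 : P + χ • (e * z * e') + (χ • (e * z * e') + χ • (χ • P)) =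
              P + χ • ((2 : ℂ) • (e * z * e') + χ • P) := by module
            rw [h5] at h1
            exact left_eq_add.1 h1.symm
          by_cases hχ0 : χ = 0
          · exfalso
            rw [hχ0, mul_zero, add_zero] at ht1
            have h1 : trace (z * Q) = 0 := by linear_combination (ht2 - ht1) / 2
            rw [h1] at hn
            have h2 : ((3 : ℕ) : ℂ) = ((2 * n : ℕ) : ℂ) := by
              push_cast
              push_cast at hn
              linear_combination 2 * hn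
            have h3 : 3 = 2 * n := by exact_mod_cast h2
            omega
          · have h1 : (2 : ℂ) • (e * z * e') + χ • P = 0 := (smul_eq_zero.1 hsq).resolve_left hχ0
            have h2 : (2 : ℂ) • (e * z * e') = -(χ • P) := eq_neg_of_add_eq_zero_left h1
            refine key ?_ ?_
            · rw [hezP, smul_add, h2, smul_smul]
              module
            · have h3 : z * Q = e' * (e * z * e') * e := by
                have h4 : e' * (e * z * e') * e = (e' * e) * z * (e' * e) := by noncomm_ring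
                rw [h4, hee', hzQ, mul_assoc, H.QQ]
              rw [h3, ← Matrix.smul_mul, ← Matrix.mul_smul, h2, mul_neg, neg_mul, Matrix.mul_smul,
                Matrix.smul_mul, heP', hee']
        · have h1 : e' * z + z * e' = 0 := by
            have h2 : β • (e' * z + z * e') = 0 := by
              rw [smul_add, ← Matrix.smul_mul, ← Matrix.mul_smul, ← hβ, s2]
            exact (smul_eq_zero.1 h2).resolve_left hβ0
          have h2 : (2 : ℂ) • (z * e') = -(χ • e') := by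
            rw [hze'] at h1
            rw [two_smul, eq_neg_iff_add_eq_zero, ← h1]
            abel
          have h3 : (2 : ℂ) • (e' * z) = χ • e' := by
            rw [hze', smul_add, h2]
            module
          refine key ?_ ?_
          · rw [← hzP, ← hee, mul_assoc, ← Matrix.mul_smul, h3, Matrix.mul_smul]
          · rw [← hee', ← mul_assoc, ← Matrix.smul_mul, h2, neg_mul, Matrix.smul_mul]
      · have h1 : e * z + z * e = 0 := by
          have h2 : α • (e * z + z * e) = 0 := by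
            rw [smul_add, ← Matrix.smul_mul, ← Matrix.mul_smul, ← hα, s1]
          exact (smul_eq_zero.1 h2).resolve_left hα0
        have h2 : (2 : ℂ) • (e * z) = -(χ • e) := by
          rw [hze] at h1
          rw [two_smul, eq_neg_iff_add_eq_zero, ← h1]
          abel
        have h3 : (2 : ℂ) • (z * e) = χ • e := by
          rw [hze, smul_add, h2]
          module
        refine key ?_ ?_
        · rw [← hee, ← mul_assoc, ← Matrix.smul_mul, h3, Matrix.smul_mul]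
        · rw [← hzQ, ← hee', mul_assoc, ← Matrix.mul_smul, h2, mul_neg, Matrix.mul_smul]
    exact ⟨α, β, γ, by rw [hXs, hα, hβ, hγ]⟩
  -- the stable plane
  obtain ⟨f, ψ, hf1, hf2, hf3, hf4⟩ := exists_frame H.QQ (n := 3) H.trQ
  have hPf : ∀ i, P *ᵥ f i = 0 := by
    intro i
    rw [← hf1 i, mulVec_mulVec, H.PQ, zero_mulVec]
  have hef : e *ᵥ (e *ᵥ f 0) = 0 := by rw [mulVec_mulVec, hee0, zero_mulVec]
  have he'f : e' *ᵥ f 0 = 0 := by
    rw [← hf1 0, mulVec_mulVec, heQ', zero_mulVec]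
  have hee'f : e' *ᵥ (e *ᵥ f 0) = f 0 := by
    rw [mulVec_mulVec, hee', hf1]
  have hDf : (P - Q) *ᵥ f 0 = -f 0 := by
    rw [sub_mulVec, hPf, hf1, zero_sub]
  have hDef : (P - Q) *ᵥ (e *ᵥ f 0) = e *ᵥ f 0 := by
    rw [mulVec_mulVec, hDe]
  have hQef : Q *ᵥ (e *ᵥ f 0) = 0 := by rw [mulVec_mulVec, hQe, zero_mulVec]
  rcases H.irr (Submodule.span ℂ {f 0, e *ᵥ f 0}) (by
    intro u hu
    obtain ⟨x, y, rfl⟩ := Submodule.mem_span_pair.1 hu
    rw [mulVec_add, mulVec_smul, mulVec_smul, add_mulVec, add_mulVec, hPf, hf1, hQef,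
      mulVec_mulVec, hPe, zero_add, add_zero]) (by
    intro X hX u hu
    obtain ⟨α, β, γ, rfl⟩ := (hG' X).1 (hle hX)
    obtain ⟨x, y, rfl⟩ := Submodule.mem_span_pair.1 hu
    rw [Submodule.mem_span_pair]
    refine ⟨β * y - γ * x, α * x + γ * y, ?_⟩
    simp only [add_mulVec, smul_mulVec, mulVec_add, mulVec_smul, hef, he'f, hee'f, hDf, hDef]
    module) with h1 | h1
  · have h2 : f 0 ∈ Submodule.span ℂ {f 0, e *ᵥ f 0} := Submodule.subset_span (Or.inl rfl)
    rw [h1, Submodule.mem_bot] at h2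
    have h3 := hf3 0 0
    rw [h2, map_zero] at h3
    simp at h3
  · have h2 := h1 (f 1) (by rw [add_mulVec, hPf, hf1, zero_add])
    obtain ⟨x, y, hxy⟩ := Submodule.mem_span_pair.1 h2
    have h3 := congrArg (fun v => ψ 1 (Q *ᵥ v)) hxy
    simp only [mulVec_add, mulVec_smul, hQef, hf1, smul_zero, add_zero, map_smul, hf3] at h3
    simp at h3

/-- There are elements of rank one. -/
theorem rk1_three (H : LieP G P Q 3 3) (T0 : ∀ X ∈ G, trace X = 0) (NB : NBil G P Q)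
    (GI : GenInv G P Q) : ¬NR1 G P Q := by
  intro hNR
  obtain ⟨e, e', p, q, k⟩ := exists_trp H (by norm_num) (by norm_num)
  rcases k.rank_cases H hNR with h1 | ⟨rfl, rfl⟩
  · obtain ⟨f, g', ψ, φ, c, x1, sk⟩ := k.skw H hNR h1
    exact skw_false sk H T0 NB
  · exact no_line H k T0 GI

end Pool.Agent.N183.JP
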