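import Mathlib
import Pool.Agent.N183.JP.Three
import Pool.Agent.N183.JP.Nondeg

/-!
# Elements of rank one in irreducible Lie algebras generated by involutions
-/

set_option linter.unusedSectionVars false

namespace Pool.Agent.N183.JP

open Module Matrix
open Pool.Agent.Y4.G.Lie (pos mem_pos)
open Pool.Agent.R915 (NBil GenInv)
open Pool.Agent.W548.Odd (rk)
open Pool.Agent.Y224.TS (partner)

noncomputable section

section mat

variable {V : Type} [AddCommGroup V] [Module ℂ V] [FiniteDimensional ℂ V]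

/-- The matrices of the operators. -/
def mm (V : Type) [AddCommGroup V] [Module ℂ V] [FiniteDimensional ℂ V] :
    End ℂ V ≃ₐ[ℂ] Matrix (Fin (finrank ℂ V)) (Fin (finrank ℂ V)) ℂ :=
  LinearMap.toMatrixAlgEquiv (finBasis ℂ V)

/-- The coordinates. -/
def cf (V : Type) [AddCommGroup V] [Module ℂ V] [FiniteDimensional ℂ V] :
    V ≃ₗ[ℂ] (Fin (finrank ℂ V) → ℂ) := (finBasis ℂ V).equivFun

theorem mm_mulVec (f : End ℂ V) (v : V) : mm V f *ᵥ cf V v = cf V (f v) :=
  LinearMap.toMatrix_mulVec_repr (finBasis ℂ V) (finBasis ℂ V) f v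

theorem mm_mulVec' (f : End ℂ V) (w : Fin (finrank ℂ V) → ℂ) :
    mm V f *ᵥ w = cf V (f ((cf V).symm w)) := by
  rw [← mm_mulVec, LinearEquiv.apply_symm_apply]

theorem mm_trace (f : End ℂ V) : (mm V f).trace = LinearMap.trace ℂ V f :=
  (LinearMap.trace_eq_matrix_trace ℂ (finBasis ℂ V) f).symm

end mat

variable {V : Type} [AddCommGroup V] [Module ℂ V] [FiniteDimensional ℂ V]
  {𝔤 : Submodule ℂ (End ℂ V)} (hbr : ∀ X ∈ 𝔤, ∀ Y ∈ 𝔤, X * Y - Y * X ∈ 𝔤)
  (hirr : ∀ W : Submodule ℂ V, (∀ X ∈ 𝔤, X * X = (1 / 4 : ℂ) • 1 → ∀ u ∈ W, X u ∈ W) →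
    W = ⊥ ∨ W = ⊤)
  {D : End ℂ V} (hD : D ∈ 𝔤) (hD2 : D * D = 1) {a b : ℕ}
  (htr : LinearMap.trace ℂ V D = (a : ℂ) - b) (hn : finrank ℂ V = a + b)

/-- The projectors. -/
def prj (D : End ℂ V) : End ℂ V := (2 : ℂ)⁻¹ • (1 + D)

include hD2 in
theorem prj_idem : prj D * prj D = prj D := by
  unfold prj
  have h1 : (1 + D) * (1 + D) = (2 : ℂ) • (1 + D) := by
    have h2 : (1 + D) * (1 + D) = 1 + D + (D + D * D) := by noncomm_ring
    rw [h2, hD2, two_smul]
    abel
  rw [smul_mul_assoc, mul_smul_comm, h1, smul_smul, smul_smul]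
  norm_num

include hD2 in
theorem prj_mul : prj D * prj (-D) = 0 := by
  unfold prj
  have h1 : (1 + D) * (1 + -D) = 0 := by
    have h2 : (1 + D) * (1 + -D) = 1 - D * D := by noncomm_ring
    rw [h2, hD2, sub_self]
  rw [smul_mul_assoc, mul_smul_comm, h1, smul_zero, smul_zero]

theorem prj_add : prj D + prj (-D) = 1 := by
  unfold prj
  module

theorem prj_sub : prj D - prj (-D) = D := by
  unfold prj
  module

include htr hn in
theorem prj_trace : LinearMap.trace ℂ V (prj D) = a := by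
  unfold prj
  rw [map_smul, map_add, LinearMap.trace_one, htr, hn, smul_eq_mul]
  push_cast
  ring

theorem D_of_prj {x : End ℂ V} (h : prj D * x = x) : D * x = x := by
  unfold prj at h
  rw [smul_mul_assoc, add_mul, one_mul] at h
  have h1 := congrArg (fun z => (2 : ℂ) • z) h
  beta_reduce at h1
  rw [smul_smul, mul_inv_cancel₀ two_ne_zero, one_smul, two_smul] at h1
  exact add_left_cancel h1

theorem D_of_prj' {x : End ℂ V} (h : x * prj (-D) = x) : x * D = -x := by
  unfold prj at h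
  rw [mul_smul_comm, mul_add, mul_one, mul_neg] at h
  have h1 := congrArg (fun z => (2 : ℂ) • z) h
  beta_reduce at h1
  rw [smul_smul, mul_inv_cancel₀ two_ne_zero, one_smul, two_smul] at h1
  have h2 := add_left_cancel h1
  rw [← neg_eq_iff_eq_neg]
  exact h2

theorem prj_of_D {x : End ℂ V} (h : D * x = x) : prj D * x = x := by
  unfold prj
  rw [smul_mul_assoc, add_mul, one_mul, h, ← two_smul ℂ, smul_smul, inv_mul_cancel₀ two_ne_zero,
    one_smul]

theorem prj_of_D' {x : End ℂ V} (h : x * D = -x) : x * prj (-D) = x := by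
  unfold prj
  rw [mul_smul_comm, mul_add, mul_one, mul_neg, h, neg_neg, ← two_smul ℂ, smul_smul,
    inv_mul_cancel₀ two_ne_zero, one_smul]

/-- The Lie algebra of the matrices. -/
def mG (𝔤 : Submodule ℂ (End ℂ V)) :
    Submodule ℂ (Matrix (Fin (finrank ℂ V)) (Fin (finrank ℂ V)) ℂ) :=
  𝔤.map (mm V).toLinearMap

theorem mem_mG {x : End ℂ V} : mm V x ∈ mG 𝔤 ↔ x ∈ 𝔤 := by
  constructor
  · rintro ⟨y, hy, hyx⟩
    have h1 : y = x := (mm V).injective hyx
    rwa [← h1]
  · intro hx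
    exact ⟨x, hx, rfl⟩

theorem exists_mG {x : Matrix (Fin (finrank ℂ V)) (Fin (finrank ℂ V)) ℂ} (hx : x ∈ mG 𝔤) :
    ∃ y ∈ 𝔤, mm V y = x := by
  obtain ⟨y, hy, hyx⟩ := hx
  exact ⟨y, hy, hyx⟩

include hbr hirr hD hD2 in
theorem rg_aux : ∀ x ∈ pos (mG 𝔤) (mm V (prj D)) (mm V (prj (-D))),
    ∃ y ∈ pos (mG 𝔤) (mm V (prj (-D))) (mm V (prj D)), x * y * x = x := by
  rintro x ⟨hx0, h1, h2⟩
  obtain ⟨x, hx, rfl⟩ := exists_mG hx0
  rw [← map_mul] at h1 h2
  have h1' := D_of_prj ((mm V).injective h1)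
  have h2' := D_of_prj' ((mm V).injective h2)
  obtain ⟨f, hf, hf1, hf2, hf3, -⟩ := partner hbr
    (fun y hy h => trace_nondeg hbr hirr hy h) hD hD2 hx h1' h2'
  refine ⟨mm V f, ⟨mem_mG.2 hf, ?_, ?_⟩, ?_⟩
  · rw [← map_mul, prj_of_D (D := -D) (by rw [neg_mul, hf1, neg_neg])]
  · have h3 := prj_of_D' (D := -D) (x := f) (by rw [mul_neg, hf2])
    rw [neg_neg] at h3
    rw [← map_mul, h3]
  · rw [← map_mul, ← map_mul, hf3]

include hbr hirr hD hD2 htr hn in
/-- The Lie algebra of matrices. -/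
theorem lieP : LieP (mG 𝔤) (mm V (prj D)) (mm V (prj (-D))) a b := by
  have hDn : -D ∈ 𝔤 := 𝔤.neg_mem hD
  have hDn2 : -D * -D = 1 := by rw [neg_mul_neg, hD2]
  have hsum : mm V (prj D) + mm V (prj (-D)) = 1 := by rw [← map_add, prj_add, map_one]
  refine
    { br := ?_
      PP := by rw [← map_mul, prj_idem hD2]
      QQ := by rw [← map_mul, prj_idem hDn2]
      PQ := by rw [← map_mul, prj_mul hD2, map_zero]
      QP := by
        have h1 := prj_mul hDn2
        rw [neg_neg] at h1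
        rw [← map_mul, h1, map_zero]
      D := by
        rw [← map_sub, prj_sub]
        exact mem_mG.2 hD
      lel := fun X _ => by rw [hsum, one_mul]
      ler := fun X _ => by rw [hsum, mul_one]
      irr := ?_
      rg := rg_aux hbr hirr hD hD2
      rg' := by
        have h1 := rg_aux hbr hirr hDn hDn2
        rw [neg_neg] at h1
        exact h1
      trP := by rw [mm_trace, prj_trace htr hn]
      trQ := by
        rw [mm_trace, prj_trace (D := -D) (a := b) (b := a) (by rw [map_neg, htr]; ring)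
          (by rw [hn, add_comm])] }
  · intro X hX0 Y hY0
    obtain ⟨X, hX, rfl⟩ := exists_mG hX0
    obtain ⟨Y, hY, rfl⟩ := exists_mG hY0
    rw [← map_mul, ← map_mul, ← map_sub]
    exact mem_mG.2 (hbr X hX Y hY)
  · intro W _ hW
    rcases hirr (W.comap (cf V).toLinearMap) (fun X hX _ u hu => by
      rw [Submodule.mem_comap] at hu ⊢
      change cf V (X u) ∈ W
      rw [← mm_mulVec]
      exact hW _ (mem_mG.2 hX) _ hu) with h1 | h1
    · left
      rw [Submodule.eq_bot_iff] at h1 ⊢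
      intro u hu
      have h2 := h1 ((cf V).symm u) (by
        rw [Submodule.mem_comap]
        change cf V ((cf V).symm u) ∈ W
        rwa [LinearEquiv.apply_symm_apply])
      rw [← (cf V).apply_symm_apply u, h2, map_zero]
    · right
      intro u _
      have h2 : (cf V).symm u ∈ W.comap (cf V).toLinearMap := by rw [h1]; trivial
      rw [Submodule.mem_comap] at h2
      change cf V ((cf V).symm u) ∈ W at h2
      rwa [LinearEquiv.apply_symm_apply] at h2

variable (hnr : ∀ x ∈ 𝔤, D * x = x → x * D = -x → rk x ≠ 1)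

include hnr in
theorem nr1 : NR1 (mG 𝔤) (mm V (prj D)) (mm V (prj (-D))) := by
  rintro x ⟨hx00, h1, h2⟩ u hu
  obtain ⟨x, hx, rfl⟩ := exists_mG hx00
  rw [← map_mul] at h1 h2
  have h1' := D_of_prj ((mm V).injective h1)
  have h2' := D_of_prj' ((mm V).injective h2)
  by_contra hcon
  have hx0 : x ≠ 0 := by
    rintro rfl
    exact hcon (map_zero _)
  have hxu : ∀ v, ∃ c : ℂ, x v = c • (cf V).symm u := by
    intro v
    obtain ⟨c, hc⟩ := hu (cf V v)
    refine ⟨c, (cf V).injective ?_⟩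
    rw [← mm_mulVec, hc, map_smul, LinearEquiv.apply_symm_apply]
  obtain ⟨v, hv⟩ : ∃ v, x v ≠ 0 := by
    by_contra h
    push Not at h
    exact hx0 (LinearMap.ext h)
  obtain ⟨c, hc⟩ := hxu v
  have hc0 : c ≠ 0 := by
    rintro rfl
    rw [zero_smul] at hc
    exact hv hc
  have hu0 : (cf V).symm u ≠ 0 := by
    intro h0
    rw [h0, smul_zero] at hc
    exact hv hc
  refine hnr x hx h1' h2' ?_
  have h3 : LinearMap.range x = Submodule.span ℂ {(cf V).symm u} := by
    apply le_antisymm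
    · rintro _ ⟨w, rfl⟩
      obtain ⟨d, hd⟩ := hxu w
      rw [hd]
      exact Submodule.smul_mem _ _ (Submodule.mem_span_singleton_self _)
    · rw [Submodule.span_singleton_le_iff_mem]
      refine ⟨c⁻¹ • v, ?_⟩
      rw [map_smul, hc, smul_smul, inv_mul_cancel₀ hc0, one_smul]
  unfold rk
  rw [h3, finrank_span_singleton hu0]

/-- **Elements of rank one**: an irreducible Lie algebra generated by involutions, with an
involution whose eigenvalues have coprime multiplicities, or the multiplicities two and two or three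
and three if the traces vanish and there are no invariant symmetric bilinear forms. -/
theorem exists_rk1 (hbr : ∀ X ∈ 𝔤, ∀ Y ∈ 𝔤, X * Y - Y * X ∈ 𝔤)
    (hirr : ∀ W : Submodule ℂ V, (∀ X ∈ 𝔤, X * X = (1 / 4 : ℂ) • 1 → ∀ u ∈ W, X u ∈ W) →
      W = ⊥ ∨ W = ⊤)
    (hgen : ∀ L : Submodule ℂ (End ℂ V), (∀ X ∈ 𝔤, X * X = 1 → X ∈ L) →
      (∀ X ∈ L, ∀ Y ∈ L, X * Y - Y * X ∈ L) → 𝔤 ≤ L)
    {D : End ℂ V} (hD : D ∈ 𝔤) (hD2 : D * D = 1) {a b : ℕ}
    (htr : LinearMap.trace ℂ V D = (a : ℂ) - b) (hn : finrank ℂ V = a + b) (ha : 0 < a) (hb : 0 < b)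
    (hc : Nat.Coprime a b ∨ (((a = 2 ∧ b = 2) ∨ (a = 3 ∧ b = 3)) ∧
      (∀ X ∈ 𝔤, LinearMap.trace ℂ V X = 0) ∧
      ∀ β : V →ₗ[ℂ] V →ₗ[ℂ] ℂ, (∀ u v, β u v = β v u) →
        (∀ X ∈ 𝔤, ∀ u v, β (X u) v + β u (X v) = 0) → ∀ u v, β u v = 0)) :
    ∃ x ∈ 𝔤, D * x = x ∧ x * D = -x ∧ rk x = 1 := by
  by_contra hcon
  push Not at hcon
  have H := lieP hbr hirr hD hD2 htr hn
  have hNR := nr1 hcon
  rcases hc with hc | ⟨hab, hT, hNB⟩
  · exact rk1_coprime H ha hb hc hNR
  · have hT0 : ∀ X ∈ mG 𝔤, trace X = 0 := by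
      intro X hX0
      obtain ⟨X, hX, rfl⟩ := exists_mG hX0
      rw [mm_trace, hT X hX]
    have hsum : mm V (prj D) + mm V (prj (-D)) = 1 := by rw [← map_add, prj_add, map_one]
    have hNB' : NBil (mG 𝔤) (mm V (prj D)) (mm V (prj (-D))) := by
      intro β hs hβ u v _ _
      have h1 := hNB (β.compl₁₂ (cf V).toLinearMap (cf V).toLinearMap) (fun u v => hs _ _)
        (fun X hX u v => by
          have h2 := hβ _ (mem_mG.2 hX) (cf V u) (cf V v) (by rw [hsum, one_mulVec])
            (by rw [hsum, one_mulVec])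
          rw [mm_mulVec, mm_mulVec] at h2
          exact h2) ((cf V).symm u) ((cf V).symm v)
      rw [LinearMap.compl₁₂_apply] at h1
      change β (cf V ((cf V).symm u)) (cf V ((cf V).symm v)) = 0 at h1
      rwa [LinearEquiv.apply_symm_apply, LinearEquiv.apply_symm_apply] at h1
    have hGI : GenInv (mG 𝔤) (mm V (prj D)) (mm V (prj (-D))) := by
      intro G' h1 h2
      have h3 : 𝔤 ≤ G'.comap (mm V).toLinearMap := by
        refine hgen _ (fun X hX hXX => ?_) (fun X hX Y hY => ?_)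
        · refine h2 (mm V X) (mem_mG.2 hX) ?_
          rw [← map_mul, hXX, map_one, hsum]
        · rw [Submodule.mem_comap] at hX hY ⊢
          have h4 := h1 _ hX _ hY
          change mm V (X * Y - Y * X) ∈ G'
          rw [map_sub, map_mul, map_mul]
          exact h4
      intro X hX0
      obtain ⟨X, hX, rfl⟩ := exists_mG hX0
      exact h3 hX
    rcases hab with ⟨rfl, rfl⟩ | ⟨rfl, rfl⟩
    · exact rk1_two H hT0 hNB' hNR
    · exact rk1_three H hT0 hNB' hGI hNR

end

end Pool.Agent.N183.JP
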