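import Mathlib
import Pool.Agent.Y224.TS.R2
import Pool.Agent.Y126.JP.Setup
import Pool.Agent.Y126.JP.Grade
import Pool.Agent.Y91.JP.Sharp

/-!
# Elements of rank one in symplectic Lie algebras generated by involutions
-/

set_option linter.unusedSectionVars false

namespace Pool.Agent.N183.JP

open Module
open Pool.Agent.W548.Odd (rk rk_eq_zero)
open Pool.Agent.Y91.JP (Kp kp_sq exists_kp_ne rank_one_sharp)
open Pool.Agent.Y126.JP (adj adj_trace altF_adj setup scal simple_of_four)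

noncomputable section

/-- The central binomial coefficients of odd numbers are divisible by four. -/
theorem four_dvd {j : ℕ} (hj : 1 ≤ j) : 4 ∣ (2 * j + 1).centralBinom := by
  have h1 := Nat.succ_mul_centralBinom_succ (2 * j)
  obtain ⟨k, hk⟩ := Nat.two_dvd_centralBinom_of_one_le (n := 2 * j) (by omega)
  rw [hk] at h1
  have h2 : 4 ∣ (2 * j + 1) * (2 * j + 1).centralBinom := ⟨(2 * (2 * j) + 1) * k, by
    rw [h1]
    ring⟩
  have h3 : Nat.Coprime 4 (2 * j + 1) := by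
    rw [show (4 : ℕ) = 2 ^ 2 by norm_num]
    refine Nat.Coprime.pow_left _ ?_
    rw [Nat.coprime_two_left]
    exact ⟨j, rfl⟩
  exact h3.dvd_of_dvd_mul_left h2

variable {V : Type} [AddCommGroup V] [Module ℂ V] [FiniteDimensional ℂ V]
  {ω : V →ₗ[ℂ] V →ₗ[ℂ] ℂ}

/-- **Elements of rank one.** A Lie algebra of symplectic operators on a space of dimension at most
seven or not divisible by four, in which the elements `X` with `X ^ 2 = 1 / 4` act irreducibly,
contains an element of rank one. -/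
theorem exists_rk1_sp {𝔥 : Submodule ℂ (End ℂ V)} (halt : ∀ v, ω v v = 0)
    (hnd : ∀ u, (∀ v, ω u v = 0) → u = 0) (hbr : ∀ X ∈ 𝔥, ∀ Y ∈ 𝔥, X * Y - Y * X ∈ 𝔥)
    (hsp : ∀ y ∈ 𝔥, ∀ a b, ω (y a) b + ω a (y b) = 0)
    (hirr : ∀ W : Submodule ℂ V, (∀ X ∈ 𝔥, X * X = (1 / 4 : ℂ) • 1 → ∀ u ∈ W, X u ∈ W) →
      W = ⊥ ∨ W = ⊤) (h0 : 0 < finrank ℂ V) (h7 : finrank ℂ V ≤ 7 ∨ ¬4 ∣ finrank ℂ V) :
    ∃ e ∈ 𝔥, rk e = 1 := by
  rcases h7 with h7 | h4
  · exact Pool.Agent.Y224.TS.exists_rank_one_small halt hnd hbr hsp hirr h0 h7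
  have hanti := Pool.Agent.Y224.TS.anti_of_alt halt
  have hndr : ∀ w, (∀ v, ω v w = 0) → w = 0 := by
    intro w hw
    refine hnd w fun v => ?_
    rw [hanti, hw, neg_zero]
  have hS := setup hbr hsp hirr hnd hndr
  have hs : Pool.Agent.Y91.JP.Scal 𝔥 := scal hirr
  -- an involution
  obtain ⟨X, hX, hXX⟩ : ∃ X ∈ 𝔥, X * X = (1 / 4 : ℂ) • 1 := by
    by_contra hcon
    push Not at hcon
    have h1 : ∀ W : Submodule ℂ V, W = ⊥ ∨ W = ⊤ := fun W =>
      hirr W fun X hX hXX => absurd hXX (hcon X hX)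
    obtain ⟨v, hv⟩ : ∃ v : V, v ≠ 0 := by
      have := Module.nontrivial_of_finrank_pos h0
      exact exists_ne 0
    have h2 : (ℂ ∙ v) = ⊤ := (h1 (ℂ ∙ v)).resolve_left (by
      rw [Submodule.span_singleton_eq_bot]
      exact hv)
    apply hv
    apply hnd
    intro w
    have h3 : w ∈ (ℂ ∙ v) := by rw [h2]; trivial
    obtain ⟨c, rfl⟩ := Submodule.mem_span_singleton.1 h3
    rw [map_smul, halt, smul_zero]
  set D : End ℂ V := (2 : ℂ) • X with hDe
  have hD : D ∈ 𝔥 := Submodule.smul_mem _ _ hX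
  have hD2 : D * D = 1 := by
    rw [hDe, smul_mul_smul_comm, hXX, smul_smul]
    norm_num
  have hne : D ≠ 0 := by
    intro h
    have := Module.nontrivial_of_finrank_pos h0
    rw [h, mul_zero] at hD2
    exact zero_ne_one hD2
  have hgn := simple_of_four hS hs h4 hD hD2
  obtain ⟨N, hN, hN0⟩ := exists_kp_ne hS hs hD hD2 hne
  have hNN := kp_sq hN
  rcases Nat.even_or_odd (rk N) with ⟨r, hr⟩ | hodd
  · obtain ⟨e, he, -, -, he1, -⟩ := rank_one_sharp hS hs (altF_adj halt hndr) (adj_trace hndr) hD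
      hD2 hgn hN.1 hNN hN0 (by omega) (by omega) (Or.inl fun j hj h5 => by
        exfalso
        apply h4
        rw [h5]
        exact four_dvd hj)
    exact ⟨e, he, he1⟩
  · exact Pool.Agent.W528.Odd.exists_rank_one_odd halt hnd Pool.Agent.W72.OT.Bound.main hbr hsp
      hirr hN.1 hNN hodd

end

end Pool.Agent.N183.JP
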